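import Pool.Agent.L0h23.FD.Cob
import Pool.Agent.Y698.Shbd
import Pool.Agent.Y698.Pu

/-!
# The 2-primary part of the Tate-Shafarevich group and the Mordell-Weil group of `y² = x³ + D³`
-/

set_option autoImplicit false
set_option linter.unusedSectionVars false

attribute [-instance] DivisionRing.toRatAlgebra

namespace Pool.Agent.L0h23.FD

open Pool.Agent.Y698 hiding Sgn
open WeierstrassCurve IsDedekindDomain NumberField WithZero

open Pool.Agent.TH841.SH.D (Pt act Gal Coch IsCoc IsCob LocTriv cob)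
open Pool.Agent.TH841.NF.D (IsShaCoc shaCoc Sha)
open Pool.Agent.TH841.SH (IsR IsX gf isX_zero isX_some not_isX)
open Pool.Agent.TH841.NF (act_act act_id act_some' pt_ext pt_inj coc_fin)
open Pool.Agent.H437R2.Man.MW (pt_fg)

open scoped Classical

section sha

variable {D : ℕ} {K F : Type} [Field K] [NumberField K] [Field F] [NumberField F] [Algebra K F]

theorem sha_twoY {a : F} (ha : a ^ 2 = a - 1)
    (hF : ∀ x : F, ∃ k₁ k₂ : K, x = algebraMap K F k₁ + algebraMap K F k₂ * a)
    (hC : MY D a)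
    (x : Sha (WY K D)) (hx : x + x = 0) : x = 0 := by
  obtain ⟨f, rfl⟩ := QuotientAddGroup.mk_surjective x
  have hx' : f + f ∈ (cob (WY K D)).addSubgroupOf (shaCoc (WY K D)) :=
    (QuotientAddGroup.eq_zero_iff (f + f)).1 hx
  rw [AddSubgroup.mem_addSubgroupOf] at hx'
  refine (QuotientAddGroup.eq_zero_iff f).2 ?_
  rw [AddSubgroup.mem_addSubgroupOf]
  obtain ⟨P, hP⟩ := hx'
  have hP1 : ∀ τ : Gal K, (f : Coch (WY K D)) τ + (f : Coch (WY K D)) τ =
    act (WY K D) τ.toAlgHom P - P := hP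
  obtain ⟨⟨hlc, hcoc⟩, hloc, -⟩ := f.2
  -- the embedding of `F`
  have halg : Algebra.IsAlgebraic K F := by
    have h1 : IsAlgebraic K a := by
      refine ⟨Polynomial.X ^ 2 - Polynomial.X + Polynomial.C 1, ?_, ?_⟩
      · intro h
        have h2 := congrArg (fun p => Polynomial.coeff p 2) h
        simp only [Polynomial.coeff_add, Polynomial.coeff_sub, Polynomial.coeff_X_pow,
          Polynomial.coeff_X, Polynomial.coeff_C, Polynomial.coeff_zero] at h2
        norm_num at h2
      · simp only [map_add, map_sub, map_pow, Polynomial.aeval_X, map_one]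
        rw [ha]
        ring
    refine ⟨fun x => ?_⟩
    obtain ⟨k₁, k₂, rfl⟩ := hF x
    exact (isAlgebraic_algebraMap k₁).add ((isAlgebraic_algebraMap k₂).mul h1)
  let κ : F →ₐ[K] Cb K := IsAlgClosed.lift
  let i1 : Algebra F (Cb K) := κ.toRingHom.toAlgebra
  have i2 : IsScalarTower K F (Cb K) := IsScalarTower.of_algebraMap_eq fun x => (κ.commutes x).symm
  have i3 : Algebra.IsAlgebraic F (Cb K) := Algebra.IsAlgebraic.tower_top (K := K) F
  have i4 : IsAlgClosure F (Cb K) := ⟨inferInstance, inferInstance⟩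
  have i5 : Normal F (Cb K) := IsAlgClosure.normal F (Cb K)
  have i6 : IsGalois F (Cb K) := { to_isSeparable := inferInstance, to_normal := i5 }
  -- halving
  have hcK : ∃ c : Cb K, c ^ 2 = c - 1 := ⟨κ a, by rw [← map_pow, ha, map_sub, map_one]⟩
  obtain ⟨c, hc⟩ := hcK
  have hIs := isRY (K := K) hc D
  obtain ⟨n1, n2, n3⟩ := rab_ne hC.ne hc
  obtain ⟨Q, hQ⟩ : ∃ Q : Pt (WY K D) (Cb K), P = Q + Q :=
    hIs.div two_ne_zero n1 n2 n3 P
  have hg : Co2Y (D := D) (K := K) (fun τ => (f : Coch (WY K D)) τ -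
      (act (WY K D) τ.toAlgHom Q - Q)) := by
    refine ⟨fun τ => ?_, fun σ τ => ?_, ?_, fun v => ?_⟩
    · have e : ∀ A B D : Pt (WY K D) (Cb K), (A - (B - D)) + (A - (B - D)) =
          (A + A) - ((B + B) - (D + D)) := fun A B D => by abel
      show (f : Coch (WY K D)) τ - (act (WY K D) τ.toAlgHom Q - Q) +
        ((f : Coch (WY K D)) τ - (act (WY K D) τ.toAlgHom Q - Q)) = 0
      rw [e, hP1, ← map_add, ← hQ, sub_self]
    · show (f : Coch (WY K D)) (σ * τ) - (act (WY K D) (σ * τ).toAlgHom Q - Q) = _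
      rw [hcoc, act_mul', map_sub, map_sub]
      abel
    · obtain ⟨S, hS⟩ := coc_fin (W := WY K D) ⟨hlc, hcoc⟩
      obtain ⟨S', hS'⟩ := fix_fin Q
      refine ⟨S ∪ S', fun τ hτ => ?_⟩
      show (f : Coch (WY K D)) τ - (act (WY K D) τ.toAlgHom Q - Q) = 0
      rw [hS τ (fun x hx => hτ x (Finset.mem_union_left _ hx)),
        hS' τ (fun x hx => hτ x (Finset.mem_union_right _ hx)), sub_self, sub_self]
    · have hch : CharZero (v.adicCompletion K) := charC v
      exact loc_sub (hloc v) Q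
  obtain ⟨R, hR⟩ := g_cobY (F := F) hg ha hF hC
  refine ⟨Q + R, fun τ => ?_⟩
  have h1 := hR τ
  have h2 : (f : Coch (WY K D)) τ =
      (act (WY K D) τ.toAlgHom R - R) + (act (WY K D) τ.toAlgHom Q - Q) := by
    rw [← h1]
    abel
  show (f : Coch (WY K D)) τ = act (WY K D) τ.toAlgHom (Q + R) - (Q + R)
  rw [h2, map_add]
  abel

/-- the 2-primary part of the Tate-Shafarevich group -/
theorem sha_powY {a : F} (ha : a ^ 2 = a - 1)
    (hF : ∀ x : F, ∃ k₁ k₂ : K, x = algebraMap K F k₁ + algebraMap K F k₂ * a)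
    (hC : MY D a) (x : Sha (WY K D)) (k : ℕ) (hx : 2 ^ k • x = 0) : x = 0 := by
  induction k generalizing x with
  | zero => rwa [pow_zero, one_nsmul] at hx
  | succ k ih =>
    have h1 : 2 ^ k • (x + x) = 0 := by
      rw [← two_nsmul, ← mul_nsmul', ← pow_succ]
      exact hx
    exact sha_twoY ha hF hC x (ih _ h1)

end sha

section points

open Pool.Agent.H437R2.Man.MW hiding Pt
open Pool.Agent.H437R2.Man (MW.Pt)

variable {F : Type} [Field F] [CharZero F]

/-- the translate by a point of order two -/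
lemma trans_sq {x y t r r' u v : F} (hy : y ≠ 0) (h : y ^ 2 = (x - t) * (x - r) * (x - r'))
    (hu : x - r = (t - r) * u ^ 2) (hv : x - r' = (t - r') * v ^ 2) :
    (∃ w, (y / (x - t)) ^ 2 + r + r' - x - t = w ^ 2) ∧
    (∃ w, (y / (x - t)) ^ 2 + r + r' - x - r = w ^ 2) ∧
    (∃ w, (y / (x - t)) ^ 2 + r + r' - x - r' = w ^ 2) := by
  obtain ⟨X, hX⟩ : ∃ X, X = x - t := ⟨_, rfl⟩
  obtain ⟨A, hA⟩ : ∃ A, A = t - r := ⟨_, rfl⟩
  obtain ⟨B, hB⟩ : ∃ B, B = t - r' := ⟨_, rfl⟩
  have hX0 : X ≠ 0 := by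
    rintro rfl
    rw [← hX, zero_mul, zero_mul] at h
    exact hy (pow_eq_zero_iff two_ne_zero |>.1 h)
  have e1 : x - r = X + A := by rw [hX, hA]; ring
  have e2 : x - r' = X + B := by rw [hX, hB]; ring
  rw [← hA, e1] at hu
  rw [← hB, e2] at hv
  rw [e1, e2, ← hX] at h
  have hXA : X * (A * u ^ 2) * (B * v ^ 2) = y ^ 2 := by rw [← hu, ← hv, h]
  rw [← hX]
  have e0 : (y / X) ^ 2 = (X + A) * (X + B) / X := by
    rw [div_pow, h]
    field_simp
  refine ⟨⟨A * B * u * v / y, ?_⟩, ⟨A * B * u * v ^ 2 / y, ?_⟩, ⟨A * B * u ^ 2 * v / y, ?_⟩⟩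
  · have e3 : (y / X) ^ 2 + r + r' - x - t = A * B / X := by
      rw [e0, hA, hB, eq_div_iff hX0]
      rw [show x = X + t by rw [hX]; ring]
      field_simp
      ring
    rw [e3]
    rw [div_pow, ← hXA, div_eq_div_iff hX0 (by rw [hXA]; exact pow_ne_zero 2 hy)]
    ring
  · have e3 : (y / X) ^ 2 + r + r' - x - r = A * (X + B) / X := by
      rw [e0, hA, hB, eq_div_iff hX0]
      rw [show x = X + t by rw [hX]; ring]
      field_simp
      ring
    rw [e3, hv, div_pow, ← hXA, div_eq_div_iff hX0 (by rw [hXA]; exact pow_ne_zero 2 hy)]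
    ring
  · have e3 : (y / X) ^ 2 + r + r' - x - r' = B * (X + A) / X := by
      rw [e0, hA, hB, eq_div_iff hX0]
      rw [show x = X + t by rw [hX]; ring]
      field_simp
      ring
    rw [e3, hu, div_pow, ← hXA, div_eq_div_iff hX0 (by rw [hXA]; exact pow_ne_zero 2 hy)]
    ring

lemma sqE_mul_inv {q d w z : F} (h : q = d * z ^ 2) (hw : w ≠ 0) :
    q = (d * w ^ 2) * (z / w) ^ 2 := by
  rw [h]
  field_simp

/-- the roots, with the signs -/
lemma negr_ne {D : ℕ} (hD : D ≠ 0) {a : F} (ha : a ^ 2 = a - 1) :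
    (D : F) ≠ -ra D a ∧ (D : F) ≠ -rb D a ∧ -ra D a ≠ -rb D a := by
  obtain ⟨n1, n2, n3⟩ := rab_ne hD ha
  refine ⟨fun h => n1 ?_, fun h => n2 ?_, fun h => n3 (neg_inj.1 h)⟩
  · unfold ro
    rw [h, neg_neg]
  · unfold ro
    rw [h, neg_neg]

/-- a point is the sum of a point of order two and a double, from the classes -/
theorem dec_of_clsY {D : ℕ} (hD : D ≠ 0) {a : F} (ha : a ^ 2 = a - 1)
    (hcl : ∀ x y : F, y ≠ 0 → y ^ 2 = (x - ro F D) * (x - ra D a) * (x - rb D a) →
      GT ((D : F) * (2 * a - 1)) (x - ra D a) (x - rb D a))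
    (P : Pool.Agent.H437R2.Man.MW.Pt (D : F) (-ra D a) (-rb D a)) :
    ∃ T Q : Pool.Agent.H437R2.Man.MW.Pt (D : F) (-ra D a) (-rb D a), T + T = 0 ∧
      P = T + (Q + Q) := by
  obtain ⟨n1, n2, n3⟩ := negr_ne hD ha
  obtain ⟨l1, l2, l3⟩ := rab_ne hD ha
  have hT2 : ∀ (t : F) (hT : (crv (D : F) (-ra D a) (-rb D a)).toAffine.Nonsingular t 0),
      (Affine.Point.some t 0 hT : Pool.Agent.H437R2.Man.MW.Pt (D : F) (-ra D a) (-rb D a)) +
        Affine.Point.some t 0 hT = 0 := by
    intro t hT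
    apply Affine.Point.add_of_Y_eq rfl
    simp [Affine.negY, crv]
  match P with
  | 0 => exact ⟨0, 0, by simp, by simp⟩
  | .some x y h =>
    by_cases hy : y = 0
    · subst hy
      exact ⟨Affine.Point.some x 0 h, 0, hT2 x h, by simp⟩
    have hq : y ^ 2 = (x - ro F D) * (x - ra D a) * (x - rb D a) := by
      have := crv_eqn.mp h.1
      rw [this]
      unfold ro
      ring
    have hc := hcl x y hy hq
    obtain ⟨δ, hδ⟩ : ∃ δ : F, δ = (D : F) * (2 * a - 1) := ⟨_, rfl⟩
    rw [← hδ] at hc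
    have ha0 := a_ne ha
    have hb0 := a_ne (hconj ha)
    have d1 : ra D a - rb D a = δ := by rw [ra_rb, hδ]
    have d2 : ra D a - ro F D = -δ * a ^ 2 := by rw [ra_ro ha, hδ]
    have d3 : rb D a - ro F D = δ * (1 - a) ^ 2 := by rw [rb_ro ha, hδ]
    have hx0 : x - ro F D ≠ 0 := by
      intro h0
      rw [h0, zero_mul, zero_mul] at hq
      exact hy (pow_eq_zero_iff two_ne_zero |>.1 hq)
    have hxA : x - ra D a ≠ 0 := by
      intro h0
      rw [h0, mul_zero, zero_mul] at hq
      exact hy (pow_eq_zero_iff two_ne_zero |>.1 hq)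
    have hxB : x - rb D a ≠ 0 := by
      intro h0
      rw [h0, mul_zero] at hq
      exact hy (pow_eq_zero_iff two_ne_zero |>.1 hq)
    have hD0 : (D : F) ≠ 0 := by exact_mod_cast hD
    have hδ0 : δ ≠ 0 := by
      rw [hδ]
      exact mul_ne_zero hD0 (s3_ne ha)
    have hsum : ro F D + ra D a + rb D a = 0 := by unfold ro ra rb; ring
    have hmain : ∀ (t : F)
        (hT : (crv (D : F) (-ra D a) (-rb D a)).toAffine.Nonsingular t 0)
        (hxt : x ≠ t), (∃ r1, (y / (x - t)) ^ 2 - x - t + D = r1 ^ 2) →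
        (∃ r2, (y / (x - t)) ^ 2 - x - t - ra D a = r2 ^ 2) →
        (∃ r3, (y / (x - t)) ^ 2 - x - t - rb D a = r3 ^ 2) →
        ∃ T Q : Pool.Agent.H437R2.Man.MW.Pt (D : F) (-ra D a) (-rb D a), T + T = 0 ∧
          Affine.Point.some x y h = T + (Q + Q) := by
      rintro t hT hxt ⟨r1, k1⟩ ⟨r2, k2⟩ ⟨r3, k3⟩
      obtain ⟨x', y', h', hsum', hx'⟩ := add_tor n1 n2 n3 h hT hxt
      have hx'' : x' = (y / (x - t)) ^ 2 - x - t := by
        rw [hx']
        have : (D : F) + -ra D a + -rb D a = 0 := by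
          unfold ro at hsum
          linear_combination -hsum
        rw [this]
        ring
      obtain ⟨Q, hQ⟩ := Pool.Agent.H437R2.Man.MW.halve (r1 := r1) (r2 := r2) (r3 := r3) n1 n2 n3
        (by rw [hx'', ← k1]) (by rw [hx'', ← k2]; ring) (by rw [hx'', ← k3]; ring) h'
      refine ⟨Affine.Point.some t 0 hT, Q, hT2 t hT, ?_⟩
      rw [hQ, ← hsum']
      have := hT2 t hT
      calc (Affine.Point.some x y h : Pool.Agent.H437R2.Man.MW.Pt (D : F) (-ra D a) (-rb D a)) =
            Affine.Point.some x y h +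
            (Affine.Point.some t 0 hT + Affine.Point.some t 0 hT) := by rw [this, add_zero]
        _ = _ := by abel
    have hns : ∀ t : F, (0 : F) ^ 2 = (t - ro F D) * (t - ra D a) * (t - rb D a) →
        (crv (D : F) (-ra D a) (-rb D a)).toAffine.Nonsingular t 0 := by
      intro t ht
      apply crv_nonsing n1 n2 n3
      rw [ht]
      unfold ro
      ring
    rcases hc with ⟨⟨z, hz, cA⟩, z', hz', cB⟩ | ⟨⟨z, hz, cA⟩, z', hz', cB⟩ |
      ⟨⟨z, hz, cA⟩, z', hz', cB⟩ | ⟨⟨z, hz, cA⟩, z', hz', cB⟩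
    · -- a double
      obtain ⟨Q, hQ⟩ := Pool.Agent.H437R2.Man.MW.halve (r1 := y / (z * z')) (r2 := z) (r3 := z')
        n1 n2 n3
        (by
          rw [div_pow, hq, cA, cB]
          unfold ro
          field_simp
          ring) (by linear_combination cA) (by linear_combination cB) h
      exact ⟨0, Q, by simp, by rw [hQ]; simp⟩
    · -- the rational point
      have hT := hns (ro F D) (by ring)
      have c1 : x - ra D a = (ro F D - ra D a) * (z / a) ^ 2 := by
        have e : ro F D - ra D a = δ * a ^ 2 := by linear_combination -d2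
        rw [cA, e]
        field_simp
      have c2 : x - rb D a = (ro F D - rb D a) * (z' / (1 - a)) ^ 2 := by
        have e : ro F D - rb D a = -δ * (1 - a) ^ 2 := by linear_combination -d3
        rw [cB, e]
        field_simp
      obtain ⟨⟨w0, k0⟩, ⟨w1, k1⟩, ⟨w2, k2⟩⟩ := trans_sq hy hq c1 c2
      refine hmain _ hT (fun h0 => hx0 (by rw [h0, sub_self])) ⟨w0, ?_⟩ ⟨w1, ?_⟩ ⟨w2, ?_⟩
      · rw [← k0]
        have e : (D : F) = ra D a + rb D a := by unfold ra rb; ring
        rw [e]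
        ring
      · rw [← k1]
        have e : -(ro F D) = ra D a + rb D a := by linear_combination -hsum
        linear_combination e
      · rw [← k2]
        have e : -(ro F D) = ra D a + rb D a := by linear_combination -hsum
        linear_combination e
    · -- the point with abscissa `a D`
      have hT := hns (ra D a) (by ring)
      have c2 : x - rb D a = (ra D a - rb D a) * z' ^ 2 := by rw [cB, d1]
      have c0 : x - ro F D = (ra D a - ro F D) * (y / (δ * a * z * z')) ^ 2 := by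
        have h5 : y ^ 2 = (x - ro F D) * (-1 * z ^ 2) * (δ * z' ^ 2) := by
          rw [hq, cA, cB]
        rw [d2, div_pow, h5]
        field_simp
      have hq' : y ^ 2 = (x - ra D a) * (x - rb D a) * (x - ro F D) := by rw [hq]; ring
      obtain ⟨⟨w0, k0⟩, ⟨w1, k1⟩, ⟨w2, k2⟩⟩ := trans_sq hy hq' c2 c0
      have e : -(ra D a) = rb D a + ro F D := by linear_combination -hsum
      refine hmain _ hT (fun h0 => hxA (by rw [h0, sub_self])) ⟨w2, ?_⟩ ⟨w0, ?_⟩ ⟨w1, ?_⟩
      · rw [← k2]
        unfold ro at e ⊢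
        linear_combination e
      · rw [← k0]
        linear_combination e
      · rw [← k1]
        linear_combination e
    · -- the point with abscissa `(1 - a) D`
      have hT := hns (rb D a) (by ring)
      have c1 : x - ra D a = (rb D a - ra D a) * z ^ 2 := by
        rw [cA]
        linear_combination z ^ 2 * d1
      have c0 : x - ro F D = (rb D a - ro F D) * (y / (δ * (1 - a) * z * z')) ^ 2 := by
        have h5 : y ^ 2 = (x - ro F D) * (-δ * z ^ 2) * (-1 * z' ^ 2) := by
          rw [hq, cA, cB]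
        rw [d3, div_pow, h5]
        field_simp
      have hq' : y ^ 2 = (x - rb D a) * (x - ro F D) * (x - ra D a) := by rw [hq]; ring
      obtain ⟨⟨w0, k0⟩, ⟨w1, k1⟩, ⟨w2, k2⟩⟩ := trans_sq hy hq' c0 c1
      have e : -(rb D a) = ra D a + ro F D := by linear_combination -hsum
      refine hmain _ hT (fun h0 => hxB (by rw [h0, sub_self])) ⟨w1, ?_⟩ ⟨w2, ?_⟩ ⟨w0, ?_⟩
      · rw [← k1]
        unfold ro at e ⊢
        linear_combination e
      · rw [← k2]
        linear_combination e
      · rw [← k0]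
        linear_combination e

end points

section mw

variable {D : ℕ} {K F : Type} [Field K] [NumberField K] [Field F] [NumberField F] [Algebra K F]

/-- the points over `F` -/
theorem pt_finiteY {a : F} (ha : a ^ 2 = a - 1) (hC : MY D a) :
    Finite (Pool.Agent.H437R2.Man.MW.Pt (D : F) (-ra D a) (-rb D a)) := by
  obtain ⟨n1, n2, n3⟩ := negr_ne hC.ne ha
  refine finite_of_dec (pt_fg n1 n2 n3) (dec_of_clsY hC.ne ha fun x y hy h => ?_)
  have hxA : x - ra D a ≠ 0 := by
    intro h0
    rw [h0, mul_zero, zero_mul] at h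
    exact hy (pow_eq_zero_iff two_ne_zero |>.1 h)
  have hxB : x - rb D a ≠ 0 := by
    intro h0
    rw [h0, mul_zero] at h
    exact hy (pow_eq_zero_iff two_ne_zero |>.1 h)
  refine hC.main _ _ hxA hxB fun P => Or.inr ⟨algebraMap F _ x, algebraMap F _ y, ?_, ?_, ?_, ?_⟩
  · obtain ⟨m0, m1, m2⟩ := map_r (algebraMap F (P.adicCompletion F)) D a
    rw [← m0, ← m1, ← m2, ← map_pow, h]
    simp only [map_mul, map_sub]
  · obtain ⟨m0, -, -⟩ := map_r (algebraMap F (P.adicCompletion F)) D a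
    refine ⟨algebraMap F _ y, ?_⟩
    rw [← m0, ← map_sub, ← map_mul, ← map_mul, ← map_mul, ← mul_assoc, ← h, pow_two]
  · obtain ⟨-, m1, -⟩ := map_r (algebraMap F (P.adicCompletion F)) D a
    rw [← m1, ← map_sub]
    exact ⟨_, rfl⟩
  · obtain ⟨-, -, m2⟩ := map_r (algebraMap F (P.adicCompletion F)) D a
    rw [← m2, ← map_sub]
    exact ⟨_, rfl⟩

/-- the Mordell-Weil group is finite -/
theorem mw_finiteY {a : F} (ha : a ^ 2 = a - 1) (hC : MY D a) :
    Finite (WY K D).toAffine.Point := by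
  have hfin := pt_finiteY ha hC
  obtain ⟨n1, n2, n3⟩ := negr_ne hC.ne ha
  have hQ : ∀ Q : {Q : K × K // (WY K D).toAffine.Equation Q.1 Q.2},
      (Pool.Agent.H437R2.Man.MW.crv (D : F) (-ra D a) (-rb D a)).toAffine.Nonsingular
        (algebraMap K F Q.1.1) (algebraMap K F Q.1.2) := by
    rintro ⟨⟨x, y⟩, h⟩
    apply Pool.Agent.H437R2.Man.MW.crv_nonsing n1 n2 n3
    have h1 : y ^ 2 = x ^ 3 + (D : K) ^ 3 := by
      rw [WeierstrassCurve.Affine.equation_iff] at h
      unfold WY at h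
      simp only at h
      linear_combination h
    have h2 := congrArg (algebraMap K F) h1
    simp only [map_pow, map_add, map_natCast] at h2
    simp only
    rw [h2]
    unfold ra rb
    linear_combination (D : F) ^ 2 * (algebraMap K F x + D) * ha
  have hinj : Function.Injective (fun Q : {Q : K × K // (WY K D).toAffine.Equation Q.1 Q.2} =>
      (WeierstrassCurve.Affine.Point.some _ _ (hQ Q) :
        Pool.Agent.H437R2.Man.MW.Pt (D : F) (-ra D a) (-rb D a))) := by
    rintro ⟨⟨x, y⟩, h⟩ ⟨⟨x', y'⟩, h'⟩ he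
    simp only [WeierstrassCurve.Affine.Point.some.injEq] at he
    obtain ⟨e1, e2⟩ := he
    have e3 := (algebraMap K F).injective e1
    have e4 := (algebraMap K F).injective e2
    subst e3
    subst e4
    rfl
  have hf : Finite {Q : K × K // (WY K D).toAffine.Equation Q.1 Q.2} :=
    Finite.of_injective _ hinj
  exact Finite.of_injective _ (Pool.Agent.W189.NF.ptMap_injective (WY K D))

end mw

end Pool.Agent.L0h23.FD
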