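import Pool.Agent.L0h23.FD.Fld
import Pool.Agent.L0h23.FD.Sha
import Pool.Agent.L0h86.F3.Def
import Pool.Agent.L0h86.F1.Tam

/-!
# The algebraic side for `y² = x³ + D³` over `ℚ`
-/

set_option autoImplicit false
set_option linter.unusedSectionVars false

namespace Pool.Agent.L0h23.FDE

open IsDedekindDomain NumberField
open Pool.Agent.L0h23.FD hiding pf
open Pool.Agent.Y696 Pool.Agent.Y715.T.Lat Pool.Agent.W192.HK
open Pool.Agent.L0h86.F3
open Pool.Agent.Y698.SG (lg lg_one lg_neg_one ix mem_ix)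
open Pool.Agent.TH841.NF.D (Sha)
open Pool.Agent.L0h86.F1 (WM)

/-- the conjugation of the indices -/
def cI (Q : Finset ℕ) (i : ℕ × Bool) : ℕ × Bool := if i.1 ∈ Q then i else (i.1, !i.2)

/-- the system -/
def Sys (Q P : Finset ℕ) (ϖ : ℕ → eis) (ε : ZMod 2) : Prop :=
  ∀ x : ℕ × Bool → ZMod 2, (∀ j ∈ ix Q P,
    ∑ i ∈ (ix Q P).erase j, mm (pf Q ϖ) i j * x i +
      (∑ i ∈ (ix Q P).erase j, mm (pf Q ϖ) i j + F4.tr (F4.w * bt (pf Q ϖ j)) +
        ε * F4.tr (bt (pf Q ϖ j))) * x j +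
      F4.tr (bt (pf Q ϖ j)) * x (cI Q j) = 0) → ∀ i ∈ ix Q P, x i = 0

/-- the exponent of the sign -/
def eD (D : ℕ) : ZMod 2 := if D % 3 = 1 then 0 else 1

section idx

variable {Q P : Finset ℕ} {ϖ : ℕ → eis}

lemma cI_cI (i : ℕ × Bool) : cI Q (cI Q i) = i := by
  unfold cI
  by_cases h : i.1 ∈ Q
  · rw [if_pos h, if_pos h]
  · rw [if_neg h, if_neg h, Bool.not_not]

lemma cI_mem {i : ℕ × Bool} (hi : i ∈ ix Q P) : cI Q i ∈ ix Q P := by
  unfold cI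
  by_cases h : i.1 ∈ Q
  · rwa [if_pos h]
  · rw [if_neg h, mem_ix]
    rw [mem_ix] at hi
    rcases hi with h1 | h1
    · exact absurd h1.2 h
    · exact Or.inr h1

lemma cj_cj' (x : eis) : cj (cj x) = x := Subtype.ext (Complex.conj_conj _)

lemma pf_cI (i : ℕ × Bool) : pf Q ϖ (cI Q i) = cj (pf Q ϖ i) := by
  unfold cI
  by_cases h : i.1 ∈ Q
  · rw [if_pos h]
    unfold pf
    rw [if_pos h]
    have h1 : cjE (-(i.1 : eis)) = -(i.1 : eis) := by rw [map_neg, map_natCast]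
    exact h1.symm
  · rw [if_neg h]
    unfold pf
    rw [if_neg h, if_neg h]
    rcases i with ⟨a, b⟩
    cases b
    · rfl
    · exact (cj_cj' _).symm

lemma D_ne (h : Dt Q P ϖ) {D : ℕ} (hD : D = ∏ q ∈ Q ∪ P, q) : D ≠ 0 := by
  rw [hD, Finset.prod_ne_zero_iff]
  intro q hq
  rcases Finset.mem_union.1 hq with h1 | h1
  · exact (h.q q h1).pr.ne_zero
  · exact (h.p q h1).pr.ne_zero

end idx

lemma lg_sy {ϖ x : eis} (h : x ∉ sp ϖ) : lg (sy ϖ x) = ns x ϖ := by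
  apply zmod2_eq
  rw [ns_iff]
  unfold sy
  rw [if_neg h]
  split_ifs with h1
  · exact ⟨fun _ => h1, fun _ => lg_one⟩
  · rw [lg_neg_one]
    exact ⟨fun h' => absurd h' one_ne_zero, fun h' => absurd h' h1⟩

lemma sum_sub {α M : Type*} [AddCommGroup M] [DecidableEq α] (S : Finset α) (j : S) (f : α → M) :
    ∑ i ∈ (Finset.univ : Finset S).erase j, f i = ∑ i ∈ S.erase j, f i := by
  rw [Finset.sum_erase_eq_sub (Finset.mem_univ j), Finset.sum_erase_eq_sub j.2,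
    Finset.sum_coe_sort S f]

section main

variable {Q P : Finset ℕ} {ϖ : ℕ → eis}

/-- **the descent** -/
theorem fin_sys (hG : S_GEN) (hS : S_SUP) (h : Dt Q P ϖ) {D : ℕ} (hD : D = ∏ q ∈ Q ∪ P, q)
    (hns : Sys Q P ϖ (eD D)) :
    Finite (WM ℚ D).toAffine.Point ∧ ∀ (x : Sha (WM ℚ D)) (k : ℕ), 2 ^ k • x = 0 → x = 0 := by
  obtain ⟨hX, hprod, -⟩ := hG Q P ϖ D h hD
  obtain ⟨e, Φ, R, hΦ, hl⟩ := exists_R3
  have hla : Φ (2 * e - 1) = la := by
    rw [map_sub, map_mul, map_one, hΦ, map_ofNat]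
    unfold la ez
    push_cast
    ring
  have hpi : ∀ (i : {i // i ∈ ix Q P}) (x : 𝓞 FF), ns x (Φ.symm (pf Q ϖ i)) = ns (Φ x) (pf Q ϖ i) := by
    intro i x
    have := ns_equiv Φ x (Φ.symm (pf Q ϖ i))
    rw [Φ.apply_symm_apply] at this
    exact this.symm
  have hdv : ∀ x y : eis, Φ.symm x ∣ Φ.symm y ↔ y ∈ sp x := by
    intro x y
    rw [Ideal.mem_span_singleton]
    exact map_dvd_iff Φ.symm
  have hdv2 : ∀ (x : 𝓞 FF) (y : eis), x ∣ Φ.symm y ↔ y ∈ sp (Φ x) := by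
    intro x y
    rw [← hdv, Φ.symm_apply_apply]
  have hFam : Fam e (fun i : {i // i ∈ ix Q P} => Φ.symm (pf Q ϖ i))
      (fun i => ⟨cI Q i, cI_mem i.2⟩) D (eD D) := by
    refine ⟨D_ne h hD, fun i => ?_, fun i j hij => ?_, fun i => ?_, ?_, fun i => ?_, ?_⟩
    · exact (MulEquiv.prime_iff Φ.symm.toMulEquiv).2 (hX.pd i.1 i.2).pr
    · rw [hdv]
      exact hX.ne j.1 j.2 i.1 i.2 fun h' => hij (Subtype.ext h'.symm)
    · obtain ⟨u, hu⟩ := (hX.pd i.1 i.2).n1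
      have h1 : Φ.symm (pf Q ϖ i) - 1 = Φ.symm (pf Q ϖ i - 1) := by rw [map_sub, map_one]
      rw [h1, hdv2, hla, Ideal.mem_span_singleton]
      exact ⟨2 * u, by rw [hu]; ring⟩
    · apply Φ.injective
      rw [map_natCast, map_mul, map_pow, map_neg, map_one, map_prod]
      simp only [Φ.apply_symm_apply]
      rw [Finset.prod_coe_sort (ix Q P) (pf Q ϖ)]
      rcases hprod with ⟨h1, h2⟩ | ⟨h1, h2⟩
      · rw [h1]
        unfold eD
        rw [if_pos h2, ZMod.val_zero, pow_zero, one_mul]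
      · rw [h1]
        unfold eD
        rw [if_neg (by omega), show ZMod.val (1 : ZMod 2) = 1 from rfl, pow_one]
        ring
    · exact Subtype.ext (cI_cI _)
    · refine ⟨(Φ.trans cjE).trans Φ.symm, ?_, fun i => ?_⟩
      · apply Φ.injective
        show Φ (Φ.symm (cjE (Φ e))) = _
        rw [Φ.apply_symm_apply, hΦ, map_add, map_one, cjE_om, map_sub, map_one, hΦ]
        ring
      · apply Φ.injective
        show _ = Φ (Φ.symm (cjE (Φ (Φ.symm (pf Q ϖ i)))))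
        rw [Φ.apply_symm_apply, Φ.apply_symm_apply, Φ.apply_symm_apply]
        exact pf_cI _
  have hNS : NSF e (fun i : {i // i ∈ ix Q P} => Φ.symm (pf Q ϖ i))
      (fun i => ⟨cI Q i, cI_mem i.2⟩) (eD D) := by
    intro x hx j
    obtain ⟨X, hXd⟩ : ∃ X : ℕ × Bool → ZMod 2,
        X = fun i => if hi : i ∈ ix Q P then x ⟨i, hi⟩ else 0 := ⟨_, rfl⟩
    have hXv : ∀ i : {i // i ∈ ix Q P}, X i = x i := by
      intro i
      rw [hXd]
      exact dif_pos i.2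
    have hm : ∀ i j : {i // i ∈ ix Q P}, i ≠ j → ns (Φ.symm (pf Q ϖ i)) (Φ.symm (pf Q ϖ j)) =
        mm (pf Q ϖ) i j := by
      intro i j hij
      rw [hpi, Φ.apply_symm_apply]
      exact (lg_sy (hX.ne i.1 i.2 j.1 j.2 fun h' => hij (Subtype.ext h'))).symm
    have key := hns X (fun j hj => by
      have h1 := hx ⟨j, hj⟩
      have hnn : ns (-1) (Φ.symm (pf Q ϖ j)) = F4.tr (bt (pf Q ϖ j)) := by
        have h2 := hpi ⟨j, hj⟩ (-1)
        rw [map_neg, map_one] at h2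
        rw [h2, ← (hS _ (hX.pd j hj)).1]
        refine (lg_sy fun h3 => ?_).symm
        apply (hX.pd j hj).pr.not_isUnit
        rw [Ideal.mem_span_singleton, dvd_neg] at h3
        exact isUnit_of_dvd_one h3
      have hrr : ns (2 * e - 1) (Φ.symm (pf Q ϖ j)) = F4.tr (F4.w * bt (pf Q ϖ j)) := by
        have h2 := hpi ⟨j, hj⟩ (2 * e - 1)
        rw [hla] at h2
        rw [h2, ← (hS _ (hX.pd j hj)).2]
        refine (lg_sy fun h3 => ?_).symm
        have h4 := (FD.pf R hFam).nd (some ⟨j, hj⟩) none (by simp)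
        apply h4
        show Φ.symm (pf Q ϖ j) ∣ 2 * e - 1
        rw [← Φ.symm_apply_apply (2 * e - 1), hdv, hla]
        exact h3
      have hs1 : ∑ i ∈ (ix Q P).erase j, mm (pf Q ϖ) i j * X i =
          ∑ i ∈ (Finset.univ : Finset (ix Q P)).erase ⟨j, hj⟩,
            ns (Φ.symm (pf Q ϖ i)) (Φ.symm (pf Q ϖ j)) * x i := by
        rw [← sum_sub (ix Q P) ⟨j, hj⟩ fun i => mm (pf Q ϖ) i j * X i]
        refine Finset.sum_congr rfl fun i hi => ?_
        rw [hXv, hm i ⟨j, hj⟩ (Finset.ne_of_mem_erase hi)]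
      have hs2 : ∑ i ∈ (ix Q P).erase j, mm (pf Q ϖ) i j =
          ∑ i ∈ (Finset.univ : Finset (ix Q P)).erase ⟨j, hj⟩,
            ns (Φ.symm (pf Q ϖ i)) (Φ.symm (pf Q ϖ j)) := by
        rw [← sum_sub (ix Q P) ⟨j, hj⟩ fun i => mm (pf Q ϖ) i j]
        refine Finset.sum_congr rfl fun i hi => ?_
        rw [hm i ⟨j, hj⟩ (Finset.ne_of_mem_erase hi)]
      have hX1 : X j = x ⟨j, hj⟩ := hXv ⟨j, hj⟩
      have hX2 : X (cI Q j) = x ⟨cI Q j, cI_mem hj⟩ := hXv ⟨cI Q j, cI_mem hj⟩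
      rw [hs1, hs2, hX1, hX2, ← hnn, ← hrr]
      unfold dg at h1
      linear_combination h1) j.1 j.2
    rw [hXv] at key
    exact key
  have hMY := myY R hFam hl hNS
  refine ⟨mw_finiteY (hbF R) hMY, fun x k hx => ?_⟩
  exact sha_powY (hbF R) (fun x => by
    obtain ⟨u, v, h⟩ := R.hF x
    exact ⟨u, v, by rw [h]; simp⟩) hMY x k hx

/-- the criterion and the system -/
theorem cr4_sys (hG : S_GEN) (hR : S_REC) (hL : S_LIN) (h : Dt Q P ϖ) {D : ℕ}
    (hD : D = ∏ q ∈ Q ∪ P, q) (h4 : D % 4 = 1) : Cr4 Q P ϖ ↔ Sys Q P ϖ (eD D) := by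
  obtain ⟨hX, -, hsum, hsy, hbt, -⟩ := hG Q P ϖ D h hD
  have h5 : ∑ i ∈ ix Q P, bt (pf Q ϖ i) = F4.of (eD D) := by
    rw [hsum h4]
    unfold eD
    split_ifs
    · rw [map_zero]
    · rw [map_one]
  exact hL (ℕ × Bool) (ix Q P) (cI Q) (fun i => bt (pf Q ϖ i)) (mm (pf Q ϖ)) (eD D)
    (fun i hi => cI_mem hi) (fun i _ => cI_cI i)
    (fun i hi => by
      show bt (pf Q ϖ (cI Q i)) = _
      rw [pf_cI, hbt _ (hX.pd i hi).n1])
    (fun i _ j _ _ => by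
      unfold mm
      rw [pf_cI, pf_cI, hsy])
    (fun i hi j hj hij => hR _ _ (hX.pd i hi) (hX.pd j hj) (hX.ne i hi j hj hij))
    h5

/-- **the descent, with the criterion** -/
theorem fin_cr4 (hG : S_GEN) (hS : S_SUP) (hR : S_REC) (hL : S_LIN) (h : Dt Q P ϖ) {D : ℕ}
    (hD : D = ∏ q ∈ Q ∪ P, q) (h4 : D % 4 = 1) (hc : Cr4 Q P ϖ) :
    Finite (WM ℚ D).toAffine.Point ∧ ∀ (x : Sha (WM ℚ D)) (k : ℕ), 2 ^ k • x = 0 → x = 0 :=
  fin_sys hG hS h hD ((cr4_sys hG hR hL h hD h4).1 hc)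

end main

end Pool.Agent.L0h23.FDE
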