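import Pool.Agent.L0h23.FD.Hpt
import Pool.Agent.Y698.Shd

/-!
# The cocycles of the curve `y² = x³ + D³` with a trivial pair of classes
-/

set_option autoImplicit false
set_option linter.unusedSectionVars false

attribute [-instance] DivisionRing.toRatAlgebra

namespace Pool.Agent.L0h23.FD

open Pool.Agent.Y698 hiding Sgn
open WeierstrassCurve IsDedekindDomain NumberField WithZero

open Pool.Agent.TH841.SH.D (Pt act Gal Coch IsCoc IsCob LocTriv)
open Pool.Agent.TH841.NF.D (IsShaCoc)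
open Pool.Agent.TH841.SH (IsR IsX gf isX_zero isX_some not_isX)
open Pool.Agent.TH841.NF (act_act act_id act_some' pt_ext pt_inj coc_fin)

open scoped Classical

/-- the class of a point of order two -/
def GT {F : Type*} [Field F] (δ qA qB : F) : Prop :=
  (SqE qA 1 ∧ SqE qB 1) ∨ (SqE qA δ ∧ SqE qB (-δ)) ∨ (SqE qA (-1) ∧ SqE qB δ) ∨
    (SqE qA (-δ) ∧ SqE qB (-1))

/-- a pair of classes of `F` which comes from a point at every place comes from a
point of order two -/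
def MainP {F : Type} [Field F] [NumberField F] (D : ℕ) (a : F) : Prop :=
  ∀ qA qB : F, qA ≠ 0 → qB ≠ 0 → (∀ P : HeightOneSpectrum (𝓞 F),
    FP D (algebraMap F (P.adicCompletion F) a) (algebraMap F (P.adicCompletion F) qA)
      (algebraMap F (P.adicCompletion F) qB)) → GT ((D : F) * (2 * a - 1)) qA qB

/-- the hypotheses of the descent -/
structure MY {F : Type} [Field F] [NumberField F] (D : ℕ) (a : F) : Prop where
  ne : D ≠ 0
  main : MainP D a
  w3 : ∃ (v : Valuation F ℤᵐ⁰) (k : ℤ), v ((D : F) * (2 * a - 1)) = exp (2 * k + 1)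

section

variable {D : ℕ} {K F : Type} [Field K] [NumberField K] [Field F] [NumberField F] [Algebra K F]
  [Algebra F (Cb K)] [IsScalarTower K F (Cb K)] [IsGalois F (Cb K)]

/-- the restriction of the cocycle to `F` is a coboundary -/
theorem res_cobY {g : Coch (WY K D)} (hg : Co2Y g) {a : F} (ha : a ^ 2 = a - 1)
    (hF : ∀ x : F, ∃ k₁ k₂ : K, x = algebraMap K F k₁ + algebraMap K F k₂ * a)
    (hC : MY D a) :
    ∃ R : Pt (WY K D) (Cb K), (R + R) + (R + R) = 0 ∧
      ∀ τ : Gal K, τ (algebraMap F (Cb K) a) = algebraMap F (Cb K) a →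
        g τ = act (WY K D) τ.toAlgHom R - R := by
  have hD0 : D ≠ 0 := hC.ne
  set c : Cb K := algebraMap F (Cb K) a with hcd
  have hc : c ^ 2 = c - 1 := by
    rw [hcd, ← map_pow, ha, map_sub, map_one]
  have h2 : (2 : Cb K) ≠ 0 := two_ne_zero
  have hIs := isRY (K := K) hc D
  obtain ⟨n1, n2, n3⟩ := rab_ne hD0 hc
  obtain ⟨m0, m1, m2⟩ := map_r (algebraMap F (Cb K)) D a
  rw [← hcd] at m1 m2
  obtain ⟨qA, qB, sA, sB, hA, hB, hP⟩ := sel_pair hD0 hg ha hF
  have hcl := hC.main qA qB hA.ne hB.ne hP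
  obtain ⟨δ, hδ⟩ : ∃ δ : F, δ = (D : F) * (2 * a - 1) := ⟨_, rfl⟩
  rw [← hδ] at hcl
  have hδ0 : δ ≠ 0 := by
    rw [hδ]
    exact mul_ne_zero (by exact_mod_cast hD0) (s3_ne ha)
  have kA : ∀ τ : Gal K, τ c = c → (τ sA = sA ↔ IsX ((WY K D).baseChange (Cb K)) (ra D c) (g τ)) := by
    intro τ hτ
    rw [← m1]
    exact hA.fix τ hτ
  have kB : ∀ τ : Gal K, τ c = c → (τ sB = sB ↔ IsX ((WY K D).baseChange (Cb K)) (rb D c) (g τ)) := by
    intro τ hτ
    rw [← m2]
    exact hB.fix τ hτ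
  have hfx : ∀ τ : Gal K, τ c = c → ∀ x : F, τ (algebraMap F (Cb K) x) = algebraMap F (Cb K) x :=
    fun τ hτ => fix_F hF hτ
  -- a trivial class
  have triv : ∀ {q : F} {s : Cb K}, SqE q 1 → s ^ 2 = algebraMap F (Cb K) q → ∀ τ : Gal K, τ c = c →
      τ s = s := by
    rintro q s ⟨z, hz, hq⟩ hs τ hτ
    refine (fixiff (hfx τ hτ) hz (t := 1) ?_).2 (map_one τ)
    rw [hs, hq, one_mul, map_pow, mul_one]
  -- a nontrivial class
  have ntriv : ∀ {q d w : F} {s G : Cb K}, SqE q d → s ^ 2 = algebraMap F (Cb K) q → w ≠ 0 →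
      G ^ 2 = algebraMap F (Cb K) (d * w ^ 2) → ∀ τ : Gal K, τ c = c → (τ s = s ↔ τ G = G) := by
    rintro q d w s G ⟨z, hz, hq⟩ hs hw hG τ hτ
    refine fixiff (hfx τ hτ) (div_ne_zero hz hw) ?_
    have hw' : algebraMap F (Cb K) w ≠ 0 := by
      rw [Ne, map_eq_zero]
      exact hw
    rw [hs, hq, mul_pow, hG, ← map_pow, ← map_mul]
    congr 1
    field_simp
  have ha0 : a ≠ 0 := a_ne ha
  have hb0 : 1 - a ≠ 0 := a_ne (hconj ha)
  -- from the pairings to the equality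
  have fin : ∀ R : Pt (WY K D) (Cb K), (R + R) + (R + R) = 0 →
      (∀ τ : Gal K, τ c = c →
        ((IsX ((WY K D).baseChange (Cb K)) (ra D c) (g τ) ↔
          IsX ((WY K D).baseChange (Cb K)) (ra D c) (act (WY K D) τ.toAlgHom R - R)) ∧
        (IsX ((WY K D).baseChange (Cb K)) (rb D c) (g τ) ↔
          IsX ((WY K D).baseChange (Cb K)) (rb D c) (act (WY K D) τ.toAlgHom R - R)))) →
      ∃ R : Pt (WY K D) (Cb K), (R + R) + (R + R) = 0 ∧
        ∀ τ : Gal K, τ c = c → g τ = act (WY K D) τ.toAlgHom R - R := by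
    intro R hR h
    refine ⟨R, hR, fun τ hτ => ?_⟩
    have hT : (act (WY K D) τ.toAlgHom R - R) + (act (WY K D) τ.toAlgHom R - R) = 0 := by
      have e : ∀ A B : Pt (WY K D) (Cb K), (A - B) + (A - B) = (A + A) - (B + B) :=
        fun A B => by abel
      rw [e, ← map_add, tor_fixY hc hτ hR, sub_self]
    exact hIs.rot.ext h2 n3 n1.symm n2.symm (hg.two τ) hT (h τ hτ).1 (h τ hτ).2
  have hns : ∀ e : Cb K, (0 : Cb K) ^ 2 = (e - ro (Cb K) D) * (e - ra D c) * (e - rb D c) →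
      ((WY K D).baseChange (Cb K)).toAffine.Nonsingular e 0 := fun e he => hIs.nons h2 n1 n2 n3 he
  have hhalf : ∀ (e : Cb K) (hn : ((WY K D).baseChange (Cb K)).toAffine.Nonsingular e 0),
      ∃ R : Pt (WY K D) (Cb K), R + R = (Affine.Point.some e 0 hn :
        ((WY K D).baseChange (Cb K)).toAffine.Point) ∧ (R + R) + (R + R) = 0 := by
    intro e hn
    obtain ⟨R, hR⟩ : ∃ R : Pt (WY K D) (Cb K), (Affine.Point.some e 0 hn :
        ((WY K D).baseChange (Cb K)).toAffine.Point) = R + R :=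
      hIs.div h2 n1 n2 n3 (Affine.Point.some e 0 hn)
    refine ⟨R, hR.symm, ?_⟩
    have h4 : @HAdd.hAdd (Pt (WY K D) (Cb K)) (Pt (WY K D) (Cb K)) _ _ (Affine.Point.some e 0 hn)
        (Affine.Point.some e 0 hn) = 0 := (hIs.add_self h2 hn).2 rfl
    have h5 : (R + R : Pt (WY K D) (Cb K)) = (Affine.Point.some e 0 hn :
        ((WY K D).baseChange (Cb K)).toAffine.Point) := hR.symm
    rw [h5]
    exact h4
  -- differences of the roots, over the closure
  have d1 : ra D c - rb D c = algebraMap F (Cb K) δ := by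
    rw [ra_rb, hδ, hcd]
    simp only [map_mul, map_sub, map_natCast, map_ofNat, map_one]
  have d2 : ra D c - ro (Cb K) D = -algebraMap F (Cb K) δ * algebraMap F (Cb K) a ^ 2 := by
    rw [ra_ro hc, ← ra_rb, d1]
  have d3 : rb D c - ro (Cb K) D = algebraMap F (Cb K) δ * algebraMap F (Cb K) (1 - a) ^ 2 := by
    rw [rb_ro hc, ← ra_rb, d1, map_sub, map_one]
  have nz : ∀ {G e f : Cb K}, G ^ 2 = e - f → e ≠ f → G ≠ 0 := by
    rintro G e f h hne rfl
    rw [zero_pow two_ne_zero] at h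
    exact hne (sub_eq_zero.1 h.symm)
  rcases hcl with ⟨cA, cB⟩ | ⟨cA, cB⟩ | ⟨cA, cB⟩ | ⟨cA, cB⟩
  · -- both classes are trivial
    refine fin 0 (by rw [add_zero, add_zero]) (fun τ hτ => ?_)
    rw [map_zero, sub_zero]
    have e1 := (kA τ hτ).1 (triv cA hA.sq τ hτ)
    have e2 := (kB τ hτ).1 (triv cB hB.sq τ hτ)
    exact ⟨⟨fun _ => isX_zero _, fun _ => e1⟩, ⟨fun _ => isX_zero _, fun _ => e2⟩⟩
  · -- the rational point
    have hn := hns (ro (Cb K) D) (by ring)
    obtain ⟨R, hR, hR4⟩ := hhalf _ hn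
    obtain ⟨G0, GA, GB, g0, gA, gB, -, hS⟩ := halfY hD0 hc hn R hR
    have hGA := nz gA n1
    have hGB := nz gB n2
    refine fin R hR4 (fun τ hτ => ?_)
    obtain ⟨hT, t0, tA, tB⟩ := hS τ hτ
    constructor
    · rw [← kA τ hτ, ← tA.iff hGA]
      refine ntriv (w := a) cA hA.sq ha0 ?_ τ hτ
      rw [gA, map_mul, map_pow]
      linear_combination -d2
    · rw [← kB τ hτ, ← tB.iff hGB]
      refine ntriv (w := 1 - a) cB hB.sq hb0 ?_ τ hτ
      rw [gB, map_mul, map_pow, map_neg]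
      linear_combination -d3
  · -- the point with abscissa `a D`
    have hn := hns (ra D c) (by ring)
    obtain ⟨R, hR, hR4⟩ := hhalf _ hn
    obtain ⟨G0, GA, GB, g0, gA, gB, -, hS⟩ := halfY hD0 hc hn R hR
    have hG0 := nz g0 n1.symm
    have hGB := nz gB n3
    refine fin R hR4 (fun τ hτ => ?_)
    obtain ⟨hT, t0, tA, tB⟩ := hS τ hτ
    have tA' := Sgn.mul hIs.rot n3 n1.symm n2.symm hT tB t0
    constructor
    · rw [← kA τ hτ, ← tA'.iff (mul_ne_zero hGB hG0)]
      refine ntriv (w := δ * a) cA hA.sq (mul_ne_zero hδ0 ha0) ?_ τ hτ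
      rw [mul_pow, gB, g0, d1, d2]
      simp only [map_mul, map_pow, map_neg, map_one]
      ring
    · rw [← kB τ hτ, ← tB.iff hGB]
      refine ntriv (w := 1) cB hB.sq one_ne_zero ?_ τ hτ
      rw [gB, d1, one_pow, mul_one]
  · -- the point with abscissa `(1 - a) D`
    have hn := hns (rb D c) (by ring)
    obtain ⟨R, hR, hR4⟩ := hhalf _ hn
    obtain ⟨G0, GA, GB, g0, gA, gB, -, hS⟩ := halfY hD0 hc hn R hR
    have hG0 := nz g0 n2.symm
    have hGA := nz gA n3.symm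
    refine fin R hR4 (fun τ hτ => ?_)
    obtain ⟨hT, t0, tA, tB⟩ := hS τ hτ
    have tB' := Sgn.mul hIs.rot.rot n2.symm n3.symm n1 hT t0 tA
    constructor
    · rw [← kA τ hτ, ← tA.iff hGA]
      refine ntriv (w := 1) cA hA.sq one_ne_zero ?_ τ hτ
      rw [gA, one_pow, mul_one, map_neg]
      linear_combination -d1
    · rw [← kB τ hτ, ← tB'.iff (mul_ne_zero hG0 hGA)]
      refine ntriv (w := δ * (1 - a)) cB hB.sq (mul_ne_zero hδ0 hb0) ?_ τ hτ
      rw [mul_pow, g0, gA, d3]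
      have e : rb D c - ra D c = -algebraMap F (Cb K) δ := by linear_combination -d1
      rw [e]
      simp only [map_mul, map_pow, map_neg, map_one]
      ring

/-- **The cocycle is a coboundary.** -/
theorem g_cobY {g : Coch (WY K D)} (hg : Co2Y g) {a : F} (ha : a ^ 2 = a - 1)
    (hF : ∀ x : F, ∃ k₁ k₂ : K, x = algebraMap K F k₁ + algebraMap K F k₂ * a)
    (hC : MY D a) :
    ∃ R : Pt (WY K D) (Cb K), ∀ τ : Gal K, g τ = act (WY K D) τ.toAlgHom R - R := by
  obtain ⟨R, hR4, hR⟩ := res_cobY hg ha hF hC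
  have hD0 : D ≠ 0 := hC.ne
  set c : Cb K := algebraMap F (Cb K) a with hcd
  have hc : c ^ 2 = c - 1 := by
    rw [hcd, ← map_pow, ha, map_sub, map_one]
  have h2 : (2 : Cb K) ≠ 0 := two_ne_zero
  have hIs := isRY (K := K) hc D
  obtain ⟨n1, n2, n3⟩ := rab_ne hD0 hc
  have ha0 : a ≠ 0 := a_ne ha
  have hb0 : 1 - a ≠ 0 := a_ne (hconj ha)
  obtain ⟨δ, hδ⟩ : ∃ δ : F, δ = (D : F) * (2 * a - 1) := ⟨_, rfl⟩
  -- `±δ` is not a square
  have hnsq : ∀ z w : F, w ≠ 0 → z ^ 2 ≠ δ * w ^ 2 ∧ z ^ 2 ≠ -δ * w ^ 2 := by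
    intro z w hw
    obtain ⟨v, k, hk⟩ := hC.w3
    rw [← hδ] at hk
    have key : ∀ e : F, v e = exp (2 * k + 1) → z ^ 2 ≠ e * w ^ 2 := by
      intro e he h
      have h1 := congrArg v h
      have hz : z ≠ 0 := by
        rintro rfl
        rw [zero_pow two_ne_zero] at h
        have h3 : e ≠ 0 := by
          rintro rfl
          rw [map_zero] at he
          exact exp_ne_zero he.symm
        exact mul_ne_zero h3 (pow_ne_zero 2 hw) h.symm
      obtain ⟨m, hm⟩ := vexp (w := v) hz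
      obtain ⟨l, hl⟩ := vexp (w := v) hw
      rw [map_mul, map_pow, map_pow, hm, hl, he, ← exp_nsmul, ← exp_nsmul, ← exp_add,
        exp_inj] at h1
      simp only [nsmul_eq_mul, Nat.cast_ofNat] at h1
      omega
    exact ⟨key _ hk, key _ (by rw [Valuation.map_neg, hk])⟩
  have d1 : ra D c - rb D c = algebraMap F (Cb K) δ := by
    rw [ra_rb, hδ, hcd]
    simp only [map_mul, map_sub, map_natCast, map_ofNat, map_one]
  have d3 : rb D c - ro (Cb K) D = algebraMap F (Cb K) δ * algebraMap F (Cb K) (1 - a) ^ 2 := by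
    rw [rb_ro hc, ← ra_rb, d1, map_sub, map_one]
  set g' : Coch (WY K D) := fun τ => g τ - (act (WY K D) τ.toAlgHom R - R) with hg'
  have hg'e : ∀ τ, g' τ = g τ - (act (WY K D) τ.toAlgHom R - R) := fun τ => rfl
  have hcoc : ∀ σ τ : Gal K, g' (σ * τ) = g' σ + act (WY K D) σ.toAlgHom (g' τ) := by
    intro σ τ
    rw [hg'e, hg'e, hg'e, hg.coc, act_mul', map_sub, map_sub]
    abel
  have h0 : ∀ τ : Gal K, τ c = c → g' τ = 0 := by
    intro τ hτ
    rw [hg'e, hR τ hτ, sub_self]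
  have h4 : ∀ τ : Gal K, (g' τ + g' τ) + (g' τ + g' τ) = 0 := by
    intro τ
    have e : ∀ A B D : Pt (WY K D) (Cb K), ((A - (B - D)) + (A - (B - D))) +
        ((A - (B - D)) + (A - (B - D))) = (A + A) + (A + A) - (((B + B) + (B + B)) -
          ((D + D) + (D + D))) := fun A B D => by abel
    rw [hg'e, e, hg.two, add_zero, ← map_add, ← map_add, hR4, map_zero, sub_zero, sub_zero]
  have hor : ∀ τ : Gal K, τ c = c ∨ τ c = 1 - c := by
    intro τ
    have h1 : (τ c) ^ 2 = τ c - 1 := by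
      rw [← map_pow, hc, map_sub, map_one]
    have h3 : (τ c - c) * (τ c - (1 - c)) = 0 := by linear_combination h1 - hc
    rcases mul_eq_zero.1 h3 with h | h
    · exact Or.inl (sub_eq_zero.1 h)
    · exact Or.inr (sub_eq_zero.1 h)
  -- the values outside of the subgroup
  by_cases hall : ∀ τ : Gal K, g' τ = 0
  · exact ⟨R, fun τ => sub_eq_zero.1 (hall τ)⟩
  push Not at hall
  obtain ⟨ρ, hρ⟩ := hall
  have hρc : ρ c = 1 - c := (hor ρ).resolve_left (fun h => hρ (h0 ρ h))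
  have hinvc : ∀ τ : Gal K, τ c = 1 - c → τ⁻¹ c = 1 - c := by
    intro τ hτ
    apply τ.injective
    rw [← AlgEquiv.mul_apply, mul_inv_cancel, AlgEquiv.one_apply, map_sub, map_one, hτ]
    ring
  have hconst : ∀ τ : Gal K, τ c = 1 - c → g' τ = g' ρ := by
    intro τ hτ
    have h5 : τ = ρ * (ρ⁻¹ * τ) := by rw [mul_inv_cancel_left]
    have h6 : (ρ⁻¹ * τ) c = c := by
      rw [AlgEquiv.mul_apply, hτ, map_sub, map_one, hinvc ρ hρc]
      ring
    rw [h5, hcoc, h0 _ h6, map_zero, add_zero]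
  set U := g' ρ with hU
  have hUfix : ∀ τ : Gal K, τ c = c → act (WY K D) τ.toAlgHom U = U := by
    intro τ hτ
    have h5 : (τ * ρ) c = 1 - c := by
      rw [AlgEquiv.mul_apply, hρc, map_sub, map_one, hτ]
    have h6 := hcoc τ ρ
    rw [hconst _ h5, h0 τ hτ, zero_add] at h6
    exact h6.symm
  have hUρ : U + act (WY K D) ρ.toAlgHom U = 0 := by
    have h5 : (ρ * ρ) c = c := by
      rw [AlgEquiv.mul_apply, hρc, map_sub, map_one, hρc]
      ring
    have h6 := hcoc ρ ρ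
    rw [h0 _ h5] at h6
    exact h6.symm
  -- `U` is of order two
  have hU2 : U + U = 0 := by
    by_contra hne
    have hinF : ∀ G : Cb K, (∀ φ : Cb K →ₐ[K] Cb K, φ c = c → act (WY K D) φ U = U → φ G = G) →
        ∃ z : F, algebraMap F (Cb K) z = G := by
      intro G hG
      apply fixm
      intro τ
      have hτc : (τ.restrictScalars K) c = c := τ.commutes a
      exact hG (τ.restrictScalars K).toAlgHom hτc (hUfix _ hτc)
    have h44 : (U + U) + (U + U) = 0 := h4 ρ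
    rcases hIs.tors h2 h44 with h5 | ⟨hn, h5⟩ | ⟨hn, h5⟩ | ⟨hn, h5⟩
    · exact hne h5
    · obtain ⟨G0, GA, GB, g0, gA, gB, hfx, -⟩ := halfY hD0 hc hn U h5
      obtain ⟨z, hz⟩ := hinF GB (fun φ h6 h7 => (hfx φ h6 h7).2.2)
      apply (hnsq z (1 - a) hb0).2
      apply (algebraMap F (Cb K)).injective
      rw [map_pow, hz, gB, map_mul, map_neg, map_pow]
      linear_combination -d3
    · obtain ⟨G0, GA, GB, g0, gA, gB, hfx, -⟩ := halfY hD0 hc hn U h5
      obtain ⟨z, hz⟩ := hinF GB (fun φ h6 h7 => (hfx φ h6 h7).2.2)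
      apply (hnsq z 1 one_ne_zero).1
      apply (algebraMap F (Cb K)).injective
      rw [map_pow, hz, gB, d1, one_pow, mul_one]
    · obtain ⟨G0, GA, GB, g0, gA, gB, hfx, -⟩ := halfY hD0 hc hn U h5
      obtain ⟨z, hz⟩ := hinF GA (fun φ h6 h7 => (hfx φ h6 h7).2.1)
      apply (hnsq z 1 one_ne_zero).2
      apply (algebraMap F (Cb K)).injective
      rw [map_pow, hz, gA, one_pow, mul_one, map_neg]
      linear_combination -d1
  -- the conjugate points
  have hA' : ∀ ρ : Gal K, ρ c = 1 - c → ρ (ra D c) = rb D c := by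
    intro ρ hρc
    exact ((map_r (ρ : Cb K →+* Cb K) D c).2.1).trans (by
      rw [show (ρ : Cb K →+* Cb K) c = 1 - c from hρc, ra_conj])
  have hB' : ∀ ρ : Gal K, ρ c = 1 - c → ρ (rb D c) = ra D c := by
    intro ρ hρc
    exact ((map_r (ρ : Cb K →+* Cb K) D c).2.2).trans (by
      rw [show (ρ : Cb K →+* Cb K) c = 1 - c from hρc, rb_conj])
  have hdbl : ∀ A B : Pt (WY K D) (Cb K), A + A = 0 → A + B = 0 → B = A := fun A B hA hB =>
    (eq_neg_of_add_eq_zero_right hB).trans (eq_neg_of_add_eq_zero_left hA).symm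
  have hactU : act (WY K D) ρ.toAlgHom U = U := hdbl U _ hU2 hUρ
  have hns : ∀ e : Cb K, (0 : Cb K) ^ 2 = (e - ro (Cb K) D) * (e - ra D c) * (e - rb D c) →
      ((WY K D).baseChange (Cb K)).toAffine.Nonsingular e 0 := fun e he => hIs.nons h2 n1 n2 n3 he
  have hnA := hns (ra D c) (by ring)
  have hnB := hns (rb D c) (by ring)
  obtain ⟨hn0, hsum⟩ := hIs.rot.add_two n3 hnA hnB
  set TA : Pt (WY K D) (Cb K) := Affine.Point.some (ra D c) 0 hnA with hTA
  set TB : Pt (WY K D) (Cb K) := Affine.Point.some (rb D c) 0 hnB with hTB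
  have hTA2 : TA + TA = 0 := (hIs.add_self h2 hnA).2 rfl
  have hTB2 : TB + TB = 0 := (hIs.add_self h2 hnB).2 rfl
  have hsum' : TA + TB = (Affine.Point.some (ro (Cb K) D) 0 hn0 :
    ((WY K D).baseChange (Cb K)).toAffine.Point) := hsum
  have hconjA : ∀ τ : Gal K, τ c = 1 - c → act (WY K D) τ.toAlgHom TA = TB := by
    intro τ hτ
    rw [hTA, hTB]
    exact pt_ext _ _ (hA' τ hτ) (map_zero τ)
  have hconjB : ∀ τ : Gal K, τ c = 1 - c → act (WY K D) τ.toAlgHom TB = TA := by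
    intro τ hτ
    rw [hTA, hTB]
    exact pt_ext _ _ (hB' τ hτ) (map_zero τ)
  have hne : TA ≠ TB := by
    intro h
    exact n3 (pt_inj _ _ h).1
  have hU0 : U = TA + TB := by
    rcases hIs.tors h2 hU2 with h5 | ⟨hn, h5⟩ | ⟨hn, h5⟩ | ⟨hn, h5⟩
    · exact absurd h5 hρ
    · rw [hsum']
      exact h5
    · exfalso
      have h6 : U = TA := h5
      rw [h6, hconjA ρ hρc] at hactU
      exact hne hactU.symm
    · exfalso
      have h6 : U = TB := h5
      rw [h6, hconjB ρ hρc] at hactU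
      exact hne hactU
  refine ⟨R + TA, fun τ => ?_⟩
  have h6 : g τ = g' τ + (act (WY K D) τ.toAlgHom R - R) := by
    rw [hg'e]
    abel
  rcases hor τ with hτ | hτ
  · rw [h6, h0 τ hτ, map_add, tor_fixY hc hτ hTA2]
    abel
  · rw [h6, hconst τ hτ, hU0, map_add, hconjA τ hτ]
    have h7 : ∀ X : Pt (WY K D) (Cb K), TA + TB + (X - R) = X + TB - (R + TA) + (TA + TA) :=
      fun X => by abel
    rw [h7, hTA2, add_zero]

end

end Pool.Agent.L0h23.FD
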