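import Pool.Agent.L0h23.FD.Lo3
import Pool.Agent.Y698.Sel

/-!
# The curve `y² = x³ + D³`
-/

set_option autoImplicit false
set_option linter.unusedSectionVars false

attribute [-instance] DivisionRing.toRatAlgebra

namespace Pool.Agent.L0h23.FD

open Pool.Agent.Y698
open WeierstrassCurve IsDedekindDomain NumberField WithZero

open Pool.Agent.TH841.SH.D (Pt act Gal Coch IsCoc IsCob LocTriv)
open Pool.Agent.TH841.SH (IsR IsX gf isX_zero isX_some not_isX)
open Pool.Agent.TH841.NF (act_act act_id act_some' pt_ext pt_inj)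

/-- the curve `y² = x³ + D³` -/
def WY (K : Type) [Field K] (D : ℕ) : WeierstrassCurve K := ⟨0, 0, 0, 0, (D : K) ^ 3⟩

section roots
variable {F : Type*} [Field F]

/-- the rational root -/
def ro (F : Type*) [Field F] (D : ℕ) : F := -(D : F)
/-- the root `a D`, where `a² = a - 1` -/
def ra (D : ℕ) (a : F) : F := (D : F) * a
/-- the root `(1 - a) D` -/
def rb (D : ℕ) (a : F) : F := (D : F) * (1 - a)

lemma hconj {a : F} (ha : a ^ 2 = a - 1) : (1 - a) ^ 2 = (1 - a) - 1 := by
  linear_combination ha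

lemma ra_conj (D : ℕ) (a : F) : ra D (1 - a) = rb D a := rfl
lemma rb_conj (D : ℕ) (a : F) : rb D (1 - a) = ra D a := by
  unfold ra rb; ring

lemma s3_sq {a : F} (ha : a ^ 2 = a - 1) : (2 * a - 1) ^ 2 = -3 := by
  linear_combination 4 * ha

lemma s3_ne [CharZero F] {a : F} (ha : a ^ 2 = a - 1) : 2 * a - 1 ≠ 0 := by
  intro h
  have := s3_sq ha
  rw [h] at this
  norm_num at this

lemma a_ne {a : F} (ha : a ^ 2 = a - 1) : a ≠ 0 := by
  rintro rfl
  norm_num at ha

lemma ab_one {a : F} (ha : a ^ 2 = a - 1) : a * (1 - a) = 1 := by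
  linear_combination -ha

/-- differences of the roots -/
lemma ra_rb (D : ℕ) (a : F) : ra D a - rb D a = (D : F) * (2 * a - 1) := by
  unfold ra rb; ring
lemma ra_ro {a : F} (ha : a ^ 2 = a - 1) (D : ℕ) :
    ra D a - ro F D = -((D : F) * (2 * a - 1)) * a ^ 2 := by
  unfold ra ro
  linear_combination (D : F) * (2 * a + 1) * ha
lemma rb_ro {a : F} (ha : a ^ 2 = a - 1) (D : ℕ) :
    rb D a - ro F D = ((D : F) * (2 * a - 1)) * (1 - a) ^ 2 := by
  unfold rb ro
  linear_combination (D : F) * (3 - 2 * a) * ha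

lemma rab_ne [CharZero F] {D : ℕ} (hD : D ≠ 0) {a : F} (ha : a ^ 2 = a - 1) :
    ro F D ≠ ra D a ∧ ro F D ≠ rb D a ∧ ra D a ≠ rb D a := by
  have hD' : (D : F) ≠ 0 := by exact_mod_cast hD
  have h0 : (D : F) * (2 * a - 1) ≠ 0 := mul_ne_zero hD' (s3_ne ha)
  have h1 := a_ne ha
  have h2 := a_ne (hconj ha)
  refine ⟨fun h => ?_, fun h => ?_, fun h => ?_⟩
  · have e := ra_ro ha D
    rw [h, sub_self] at e
    exact mul_ne_zero (neg_ne_zero.2 h0) (pow_ne_zero 2 h1) e.symm
  · have e := rb_ro ha D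
    rw [h, sub_self] at e
    exact mul_ne_zero h0 (pow_ne_zero 2 h2) e.symm
  · have e := ra_rb D a
    rw [h, sub_self] at e
    exact h0 e.symm

lemma map_r {G : Type*} [Field G] (φ : F →+* G) (D : ℕ) (a : F) :
    φ (ro F D) = ro G D ∧ φ (ra D a) = ra D (φ a) ∧ φ (rb D a) = rb D (φ a) := by
  unfold ro ra rb
  simp only [map_neg, map_mul, map_sub, map_one, map_natCast, and_self]

end roots

lemma isRY {K L : Type} [Field K] [Field L] [Algebra K L] {a : L} (ha : a ^ 2 = a - 1) (D : ℕ) :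
    IsR ((WY K D).baseChange L) (ro L D) (ra D a) (rb D a) where
  h1 := map_zero (algebraMap K L)
  h2 := by
    rw [show ((WY K D).baseChange L).a₂ = 0 from map_zero (algebraMap K L)]
    unfold ro ra rb
    ring
  h3 := map_zero (algebraMap K L)
  h4 := by
    rw [show ((WY K D).baseChange L).a₄ = 0 from map_zero (algebraMap K L)]
    unfold ro ra rb
    linear_combination (D : L) ^ 2 * ha
  h6 := by
    have e : ((WY K D).baseChange L).a₆ = (D : L) ^ 3 := by
      show algebraMap K L ((D : K) ^ 3) = (D : L) ^ 3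
      rw [map_pow, map_natCast]
    rw [e]
    unfold ro ra rb
    linear_combination (D : L) ^ 3 * ha

/-- the local condition on the pair of the classes -/
def FP {E : Type*} [Field E] (D : ℕ) (a qA qB : E) : Prop :=
  (IsSquare qA ∧ IsSquare qB) ∨
    ∃ x y : E, y ^ 2 = (x - ro E D) * (x - ra D a) * (x - rb D a) ∧
      IsSquare ((x - ro E D) * (qA * qB)) ∧ IsSquare ((x - ra D a) * qA) ∧
      IsSquare ((x - rb D a) * qB)

section tower

open scoped Classical

variable {D : ℕ} {K C : Type} [Field K] [Field C] [Algebra K C]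

/-- the points of order two are fixed -/
lemma tor_fixY [CharZero C] {σ : C ≃ₐ[K] C} {c : C} (hc : c ^ 2 = c - 1) (hσ : σ c = c)
    {T : Pt (WY K D) C} (hT : T + T = 0) : act (WY K D) σ.toAlgHom T = T := by
  have key : ∀ (e : C) (he : σ e = e) (hn : ((WY K D).baseChange C).toAffine.Nonsingular e 0),
      act (WY K D) σ.toAlgHom (Affine.Point.some e 0 hn) =
        (Affine.Point.some e 0 hn : ((WY K D).baseChange C).toAffine.Point) := by
    intro e he hn
    rw [act_some']
    exact pt_ext _ _ he (map_zero σ)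
  obtain ⟨m0, m1, m2⟩ := map_r (σ : C →+* C) D c
  rcases (isRY (K := K) hc D).tors two_ne_zero hT with rfl | ⟨h4, rfl⟩ | ⟨h4, rfl⟩ | ⟨h4, rfl⟩
  · exact map_zero _
  · exact key _ m0 h4
  · exact key _ (m1.trans (congrArg (ra D) hσ)) h4
  · exact key _ (m2.trans (congrArg (rb D) hσ)) h4

end tower

section iso

open scoped Classical

/-- the three pairings -/
lemma isX_first {L : Type*} [Field L] {W : WeierstrassCurve L} {a b c : L}
    (h : IsR W a b c) (h2 : (2 : L) ≠ 0) (hab : a ≠ b) (hac : a ≠ c) (hbc : b ≠ c)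
    {T : W.toAffine.Point} (hT : T + T = 0) : IsX W a T ↔ (IsX W b T ↔ IsX W c T) := by
  constructor
  · intro ha
    rcases h.tors h2 hT with rfl | ⟨h1, rfl⟩ | ⟨h1, rfl⟩ | ⟨h1, rfl⟩
    · exact ⟨fun _ => isX_zero _, fun _ => isX_zero _⟩
    · exact ⟨fun h' => absurd h' (not_isX h1 hab), fun h' => absurd h' (not_isX h1 hac)⟩
    · exact absurd ha (not_isX h1 hab.symm)
    · exact absurd ha (not_isX h1 hac.symm)
  · exact isX_three h.rot h2 hbc hT

end iso

end Pool.Agent.L0h23.FD
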