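import Pool.Agent.L0h23.FD.Mn
import Pool.Agent.Y696.Psi

/-!
# The field `ℚ(√-3)` and the ring of the Eisenstein integers
-/

set_option autoImplicit false
set_option linter.unusedSectionVars false

namespace Pool.Agent.L0h23.FD

open IsDedekindDomain NumberField WithZero
open Pool.Agent.Y696

/-- the complex conjugation of the Eisenstein integers -/
noncomputable def cjE : eis ≃+* eis where
  toFun := cj
  invFun := cj
  left_inv _ := Subtype.ext (Complex.conj_conj _)
  right_inv _ := Subtype.ext (Complex.conj_conj _)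
  map_mul' _ _ := Subtype.ext (map_mul (starRingEnd ℂ) _ _)
  map_add' _ _ := Subtype.ext (map_add (starRingEnd ℂ) _ _)

lemma cjE_apply (x : eis) : cjE x = cj x := rfl

lemma cjE_om : cjE omr = -1 - omr := by
  apply Subtype.ext
  show (starRingEnd ℂ) om = -1 - om
  rw [conj_om]
  linear_combination om_sq

/-- the field -/
abbrev FF : Type := CyclotomicField 3 ℚ

lemma ff_cyc : IsCyclotomicExtension {3} ℚ FF := by
  have : NeZero ((3 : ℕ) : ℚ) := ⟨by norm_num⟩
  exact CyclotomicField.isCyclotomicExtension 3 ℚ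

/-- the representation of the elements of the field -/
lemma repF {F : Type} [Field F] [NumberField F] {e : 𝓞 F} (he : e ^ 2 = e - 1)
    (hrep : ∀ x : 𝓞 F, ∃ u v : ℤ, x = u + v * e) (x : F) :
    ∃ u v : ℚ, x = u + v * algebraMap (𝓞 F) F e := by
  obtain ⟨a, b, hb, rfl⟩ := IsFractionRing.div_surjective (A := 𝓞 F) x
  have hb0 : b ≠ 0 := nonZeroDivisors.ne_zero hb
  obtain ⟨u, v, rfl⟩ := hrep b
  obtain ⟨s, t, hst⟩ := hrep (a * ((u : 𝓞 F) + v * (1 - e)))
  have hn : ((u : 𝓞 F) + v * e) * ((u : 𝓞 F) + v * (1 - e)) = ((u ^ 2 + u * v + v ^ 2 : ℤ) : 𝓞 F) := by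
    push_cast
    linear_combination -(v : 𝓞 F) ^ 2 * he
  have hN : (u ^ 2 + u * v + v ^ 2 : ℤ) ≠ 0 := by
    intro h0
    have h1 : u = 0 ∧ v = 0 := by
      have h2 : (2 * u + v) ^ 2 + 3 * v ^ 2 = 0 := by linear_combination 4 * h0
      have h3 : v = 0 := by
        have h4 : v ^ 2 = 0 := by nlinarith [sq_nonneg (2 * u + v), sq_nonneg v]
        exact pow_eq_zero_iff (two_ne_zero) |>.1 h4
      subst h3
      have h4 : u ^ 2 = 0 := by linear_combination h0
      exact ⟨pow_eq_zero_iff (two_ne_zero) |>.1 h4, rfl⟩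
    apply hb0
    rw [h1.1, h1.2, Int.cast_zero, zero_mul, add_zero]
  obtain ⟨N, hNe⟩ : ∃ N : ℤ, N = u ^ 2 + u * v + v ^ 2 := ⟨_, rfl⟩
  rw [← hNe] at hn hN
  refine ⟨(s : ℚ) / N, (t : ℚ) / N, ?_⟩
  have hNF : (N : F) ≠ 0 := Int.cast_ne_zero.2 hN
  have h1 : algebraMap (𝓞 F) F ((u : 𝓞 F) + v * e) ≠ 0 := by
    rw [Ne, FaithfulSMul.algebraMap_eq_zero_iff]
    exact hb0
  generalize (u : 𝓞 F) + v * e = B at h1 hn
  generalize (u : 𝓞 F) + v * (1 - e) = B' at hn hst
  have h2 := congrArg (algebraMap (𝓞 F) F) hn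
  have h3 := congrArg (algebraMap (𝓞 F) F) hst
  rw [map_mul, map_intCast] at h2
  rw [map_mul, map_add, map_mul, map_intCast, map_intCast] at h3
  rw [div_eq_iff h1]
  have h4 : (((s : ℚ) / N : ℚ) : F) = (s : F) / N := by push_cast; rfl
  have h5 : (((t : ℚ) / N : ℚ) : F) = (t : F) / N := by push_cast; rfl
  rw [h4, h5]
  have h6 : (s : F) / N + (t : F) / N * algebraMap (𝓞 F) F e =
      (s + t * algebraMap (𝓞 F) F e) / N := by ring
  rw [h6, ← h3, div_mul_eq_mul_div, eq_div_iff hNF]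
  linear_combination -(algebraMap (𝓞 F) F a) * h2

/-- a field, its ring of integers, and the isomorphism with the Eisenstein integers -/
theorem exists_R3 : ∃ (e : 𝓞 FF) (Φ : 𝓞 FF ≃+* eis), R3 FF e ∧ Φ e = 1 + omr ∧
    ns (-1) (2 * e - 1) = 1 := by
  have : Fact (Nat.Prime 3) := ⟨Nat.prime_three⟩
  have hc := ff_cyc
  obtain ⟨ζ, hζ⟩ := IsCyclotomicExtension.exists_isPrimitiveRoot ℚ FF
    (Set.mem_singleton 3) (by norm_num)
  obtain ⟨σ, hσ⟩ := exists_emb hζ
  have h2 : hζ.toInteger ^ 2 + hζ.toInteger + 1 = 0 := by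
    have h3 : hζ.toInteger ^ 3 = 1 := hζ.toInteger_isPrimitiveRoot.pow_eq_one
    have h4 : hζ.toInteger ≠ 1 := hζ.toInteger_isPrimitiveRoot.ne_one (by norm_num)
    have h5 : (hζ.toInteger - 1) * (hζ.toInteger ^ 2 + hζ.toInteger + 1) = 0 := by
      linear_combination h3
    exact (mul_eq_zero.1 h5).resolve_left (sub_ne_zero.2 h4)
  obtain ⟨η, hη⟩ : ∃ η : 𝓞 FF, η = hζ.toInteger := ⟨_, rfl⟩
  rw [← hη] at h2
  have h3 : η ^ 3 = 1 := by linear_combination (η - 1) * h2
  have hrep : ∀ x : 𝓞 FF, ∃ u v : ℤ, x = u + v * (1 + η) := by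
    intro x
    obtain ⟨u, v, h⟩ := int_rep hζ x
    refine ⟨u - v, v, ?_⟩
    rw [h, hη]
    push_cast
    ring
  have hU : ∀ u : 𝓞 FF, IsUnit u → ∃ v : 𝓞 FF, IsUnit v ∧ (u = v ^ 2 ∨ u = -v ^ 2) := by
    rintro _ ⟨u, rfl⟩
    have hun : IsUnit η := IsUnit.of_mul_eq_one (η ^ 2) (by linear_combination h3)
    have hm := IsCyclotomicExtension.Rat.Three.Units.mem hζ u
    have hcoe : ((hζ.isUnit (by norm_num)).unit : FF) = ζ := rfl
    have key : (u : 𝓞 FF) = 1 ∨ (u : 𝓞 FF) = -1 ∨ (u : 𝓞 FF) = η ∨ (u : 𝓞 FF) = -η ∨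
        (u : 𝓞 FF) = η ^ 2 ∨ (u : 𝓞 FF) = -η ^ 2 := by
      simp only [List.mem_cons, List.not_mem_nil, or_false] at hm
      rcases hm with h | h | h | h | h | h
      · left; rw [h]; rfl
      · right; left; rw [h]; rfl
      · right; right; left; rw [h, hη]; rfl
      · right; right; right; left; rw [h, hη]; rfl
      · right; right; right; right; left; rw [h, hη]; rfl
      · right; right; right; right; right; rw [h, hη]; rfl
    rcases key with h | h | h | h | h | h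
    · exact ⟨1, isUnit_one, Or.inl (by rw [h]; ring)⟩
    · exact ⟨1, isUnit_one, Or.inr (by rw [h]; ring)⟩
    · exact ⟨η ^ 2, hun.pow 2, Or.inl (by rw [h]; linear_combination -η * h3)⟩
    · exact ⟨η ^ 2, hun.pow 2, Or.inr (by rw [h]; linear_combination η * h3)⟩
    · exact ⟨η, hun, Or.inl h⟩
    · exact ⟨η, hun, Or.inr h⟩
  have hlp : Prime (2 * (1 + η) - 1) := by
    have h5 : Prime (hζ.toInteger - 1) := hζ.zeta_sub_one_prime'
    rw [← hη] at h5
    have hun : IsUnit (-η) := (IsUnit.of_mul_eq_one (η ^ 2) (by linear_combination h3)).neg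
    have e : 2 * (1 + η) - 1 = -η * (η - 1) := by linear_combination h2
    rw [e]
    exact (Associated.prime_iff (associated_unit_mul_left _ _ hun)).2 h5
  have he : (1 + η) ^ 2 = (1 + η) - 1 := by linear_combination h2
  have hR : R3 FF (1 + η) :=
    ⟨he, IsCyclotomicExtension.Rat.three_pid FF, hU, hlp, repF he hrep⟩
  refine ⟨1 + η, isoE hζ σ hσ, ?_, ?_, ?_⟩
  · exact hR
  · have e1 : isoE hζ σ hσ η = omr := by
      apply Subtype.ext
      rw [isoE_coe, hη]
      exact hσ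
    rw [map_add, map_one, e1]
  · exact ns_neg_l hR hrep

end Pool.Agent.L0h23.FD
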