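import Pool.Agent.L0h23.FD.Sym

/-!
# The global classes
-/

set_option autoImplicit false
set_option linter.unusedSectionVars false

attribute [-instance] DivisionRing.toRatAlgebra

namespace Pool.Agent.L0h23.FD

open Pool.Agent.Y698 hiding Sgn
open IsDedekindDomain NumberField WithZero
open Finset

section ufd

variable {A : Type*} [CommRing A] [IsDomain A] [IsPrincipalIdealRing A]

/-- an element is a square times a squarefree element -/
lemma exists_sqfree (g : A) (hg : g ≠ 0) : ∃ s t : A, Squarefree t ∧ g = t * s ^ 2 := by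
  induction g using UniqueFactorizationMonoid.induction_on_prime with
  | h₁ => exact absurd rfl hg
  | h₂ x hx => exact ⟨1, x, hx.squarefree, by ring⟩
  | h₃ a p ha hp ih =>
    obtain ⟨s, t, ht, rfl⟩ := ih ha
    by_cases h : p ∣ t
    · obtain ⟨t', rfl⟩ := h
      exact ⟨p * s, t', ht.squarefree_of_dvd (dvd_mul_left _ _), by ring⟩
    · refine ⟨s, p * t, ?_, by ring⟩
      rw [squarefree_mul_iff]
      refine ⟨?_, hp.squarefree, ht⟩
      exact (hp.irreducible.coprime_iff_not_dvd.2 h).isRelPrime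

variable {κ : Type} [Fintype κ] [DecidableEq κ] {ρ : κ → A}

/-- a family of prime elements, pairwise not associated -/
structure PF (ρ : κ → A) : Prop where
  pr : ∀ k, Prime (ρ k)
  nd : ∀ i j, i ≠ j → ¬ ρ i ∣ ρ j

/-- a squarefree element all of whose prime factors belong to the family -/
lemma exists_prod (h : PF ρ) {t : A} (ht : Squarefree t) (ht0 : t ≠ 0)
    (hp : ∀ p : A, Prime p → p ∣ t → ∃ k, p ∣ ρ k) :
    ∃ (T : Finset κ) (u : A), IsUnit u ∧ t = u * ∏ k ∈ T, ρ k := by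
  classical
  set T : Finset κ := univ.filter fun k => ρ k ∣ t with hT
  have hcop : (T : Set κ).Pairwise (Function.onFun IsCoprime ρ) := by
    intro i _ j _ hij
    exact ((h.pr i).irreducible.coprime_iff_not_dvd).2 (h.nd i j hij)
  obtain ⟨u, hu⟩ : ∏ k ∈ T, ρ k ∣ t := Finset.prod_dvd_of_coprime hcop fun k hk =>
    (mem_filter.1 hk).2
  refine ⟨T, u, ?_, by rw [hu]; ring⟩
  by_contra hnu
  have hu0 : u ≠ 0 := by
    rintro rfl
    rw [mul_zero] at hu
    exact ht0 hu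
  obtain ⟨p, hpi, hpu⟩ := WfDvdMonoid.exists_irreducible_factor hnu hu0
  have hpp := hpi.prime
  have hpt : p ∣ t := by rw [hu]; exact hpu.mul_left _
  obtain ⟨k, hk⟩ := hp p hpp hpt
  have has : Associated p (ρ k) := hpp.associated_of_dvd (h.pr k) hk
  have hkt : ρ k ∣ t := has.symm.dvd.trans hpt
  have hkT : k ∈ T := mem_filter.2 ⟨mem_univ _, hkt⟩
  have h1 : p ∣ ∏ k ∈ T, ρ k := hk.trans (Finset.dvd_prod_of_mem ρ hkT)
  have h2 : p * p ∣ t := by
    rw [hu]
    exact mul_dvd_mul h1 hpu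
  exact hpp.not_isUnit (ht p h2)

/-- the sign and the product of the family with exponents -/
noncomputable def gg (ρ : κ → A) (s : ZMod 2) (x : κ → ZMod 2) : A :=
  (-1) ^ s.val * ∏ k, ρ k ^ (x k).val

lemma val_add2 (a b : ZMod 2) : a.val + b.val = (a + b).val + 2 * (a.val * b.val) := by
  revert a b; decide

lemma gg_ne (h : PF ρ) (s : ZMod 2) (x : κ → ZMod 2) : gg ρ s x ≠ 0 := by
  unfold gg
  refine mul_ne_zero (pow_ne_zero _ (neg_ne_zero.2 one_ne_zero)) ?_
  exact Finset.prod_ne_zero_iff.2 fun k _ => pow_ne_zero _ (h.pr k).ne_zero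

lemma gg_mul (h : PF ρ) (s s' : ZMod 2) (x x' : κ → ZMod 2) :
    ∃ r : A, r ≠ 0 ∧ gg ρ s x * gg ρ s' x' = gg ρ (s + s') (x + x') * r ^ 2 := by
  refine ⟨(-1) ^ (s.val * s'.val) * ∏ k, ρ k ^ ((x k).val * (x' k).val), ?_, ?_⟩
  · refine mul_ne_zero (pow_ne_zero _ (neg_ne_zero.2 one_ne_zero)) ?_
    exact Finset.prod_ne_zero_iff.2 fun k _ => pow_ne_zero _ (h.pr k).ne_zero
  · unfold gg
    have e1 : ∀ (z : A) (a b : ZMod 2), z ^ a.val * z ^ b.val =
        z ^ (a + b).val * (z ^ (a.val * b.val)) ^ 2 := by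
      intro z a b
      rw [← pow_add, val_add2, pow_add, ← pow_mul, mul_comm 2]
    have e2 : (∏ k, ρ k ^ (x k).val) * ∏ k, ρ k ^ (x' k).val =
        (∏ k, ρ k ^ ((x + x') k).val) * (∏ k, ρ k ^ ((x k).val * (x' k).val)) ^ 2 := by
      rw [← Finset.prod_mul_distrib, ← Finset.prod_pow, ← Finset.prod_mul_distrib]
      exact Finset.prod_congr rfl fun k _ => e1 _ _ _
    calc _ = ((-1) ^ s.val * (-1) ^ s'.val) *
          ((∏ k, ρ k ^ (x k).val) * ∏ k, ρ k ^ (x' k).val) := by ring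
      _ = _ := by rw [e1, e2]; ring

lemma gg_zero : gg ρ 0 0 = 1 := by
  unfold gg
  simp

lemma gg_neg (s : ZMod 2) : gg ρ s 0 = (-1) ^ s.val := by
  unfold gg
  simp

end ufd

section field

variable {F : Type} [Field F] [NumberField F] [IsPrincipalIdealRing (𝓞 F)]
  {κ : Type} [Fintype κ] [DecidableEq κ] {ρ : κ → 𝓞 F}

lemma ff_ne {x : 𝓞 F} (h : x ≠ 0) : (algebraMap (𝓞 F) F x) ≠ 0 :=
  fun h' => h ((FaithfulSMul.algebraMap_injective (𝓞 F) F) (by rw [map_zero]; exact h'))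

/-- the product of the global classes -/
lemma gg_sqE (h : PF ρ) (s s' : ZMod 2) (x x' : κ → ZMod 2) :
    SqE ((algebraMap (𝓞 F) F (gg ρ s x)) * (algebraMap (𝓞 F) F (gg ρ s' x'))) (algebraMap (𝓞 F) F (gg ρ (s + s') (x + x'))) := by
  obtain ⟨r, hr, e⟩ := gg_mul h s s' x x'
  refine ⟨algebraMap (𝓞 F) F r, ff_ne hr, ?_⟩
  have := congrArg (algebraMap (𝓞 F) F) e
  simp only [map_mul, map_pow] at this
  exact this

/-- the valuation of a global class -/
lemma gg_val (h : PF ρ) (k : κ) (s : ZMod 2) (x : κ → ZMod 2) :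
    (plc (h.pr k)).valuation F (algebraMap (𝓞 F) F (gg ρ s x)) = exp (-((x k).val : ℤ)) := by
  unfold gg
  rw [map_mul, map_pow, map_neg, map_one, map_prod, map_mul, map_pow, Valuation.map_neg, map_one,
    one_pow, one_mul, map_prod, ← Finset.mul_prod_erase univ _ (mem_univ k)]
  have e : ∏ i ∈ univ.erase k, (plc (h.pr k)).valuation F
      (algebraMap (𝓞 F) F (ρ i ^ (x i).val)) = 1 := by
    refine Finset.prod_eq_one fun i hi => ?_
    rw [map_pow, map_pow]
    have := plc_one (h.pr k) (h.nd k i (ne_of_mem_erase hi).symm)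
    rw [this, one_pow]
  rw [e, mul_one, map_pow, map_pow, plc_self, ← exp_nsmul]
  congr 1
  simp

/-- the symbols of the family -/
noncomputable def Ms (ρ : κ → 𝓞 F) (i j : κ) : ZMod 2 := ns (ρ i) (ρ j)

/-- the equation at the place `k` -/
noncomputable def EQ (ρ : κ → 𝓞 F) (s : ZMod 2) (x : κ → ZMod 2) (k : κ) : ZMod 2 :=
  s * ns (-1) (ρ k) + ∑ i ∈ univ.erase k, Ms ρ i k * x i

lemma EQ_add (s s' : ZMod 2) (x x' : κ → ZMod 2) (k : κ) :
    EQ ρ (s + s') (x + x') k = EQ ρ s x k + EQ ρ s' x' k := by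
  unfold EQ
  have e : ∑ i ∈ univ.erase k, Ms ρ i k * (x + x') i =
      ∑ i ∈ univ.erase k, Ms ρ i k * x i + ∑ i ∈ univ.erase k, Ms ρ i k * x' i := by
    rw [← Finset.sum_add_distrib]
    exact Finset.sum_congr rfl fun i _ => by rw [Pi.add_apply, mul_add]
  rw [e]
  ring

lemma ns_pow {π x : 𝓞 F} (a : ZMod 2) : ns (x ^ a.val) π = ns x π * a := by
  rcases zmod2_cases a with rfl | rfl
  · rw [ZMod.val_zero, pow_zero, ns_one, mul_zero]
  · rw [show ZMod.val (1 : ZMod 2) = 1 from rfl, pow_one, mul_one]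

lemma ns_prod {π : 𝓞 F} (hπ : Prime π) {T : Finset κ} {f : κ → 𝓞 F} (h : ∀ i ∈ T, ¬ π ∣ f i) :
    ns (∏ i ∈ T, f i) π = ∑ i ∈ T, ns (f i) π := by
  induction T using Finset.induction_on with
  | empty => rw [Finset.prod_empty, Finset.sum_empty, ns_one]
  | insert i T hi ih =>
    rw [Finset.prod_insert hi, Finset.sum_insert hi, nsm hπ (h i (mem_insert_self _ _)),
      ih fun j hj => h j (mem_insert_of_mem hj)]
    intro h0
    obtain ⟨j, hj, h2⟩ := (Prime.dvd_finsetProd_iff hπ _).1 h0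
    exact h j (mem_insert_of_mem hj) h2

/-- squares at the places of the family -/
theorem sq_gg (h : PF ρ) (k : κ) (s : ZMod 2) (x : κ → ZMod 2)
    (hs : Sq ((plc (h.pr k)).valuation F) (algebraMap (𝓞 F) F (gg ρ s x))) : x k = 0 ∧ EQ ρ s x k = 0 := by
  have hxk : x k = 0 := by
    obtain ⟨z, hz, h1⟩ := hs.ev
    rw [gg_val h] at h1
    obtain ⟨m, hm⟩ := vexp (w := (plc (h.pr k)).valuation F) hz
    rw [hm, ← exp_nsmul, exp_inj] at h1
    simp only [nsmul_eq_mul, Nat.cast_ofNat] at h1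
    rcases zmod2_cases (x k) with h2 | h2
    · exact h2
    · exfalso
      rw [h2, show ZMod.val (1 : ZMod 2) = 1 from rfl] at h1
      push_cast at h1
      omega
  refine ⟨hxk, ?_⟩
  have hπ := h.pr k
  have hu1 : ¬ ρ k ∣ ((-1) ^ s.val : 𝓞 F) := by
    intro h0
    exact hπ.not_isUnit (isUnit_of_dvd_unit h0 ((isUnit_one.neg).pow _))
  have hnd : ∀ i ∈ univ.erase k, ¬ ρ k ∣ ρ i ^ (x i).val := by
    intro i hi h0
    exact h.nd k i (ne_of_mem_erase hi).symm (hπ.dvd_of_dvd_pow h0)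
  have hnp : ¬ ρ k ∣ ∏ i ∈ univ.erase k, ρ i ^ (x i).val := by
    intro h0
    obtain ⟨j, hj, h2⟩ := (Prime.dvd_finsetProd_iff hπ _).1 h0
    exact hnd j hj h2
  have hg : gg ρ s x = (-1) ^ s.val * ∏ i ∈ univ.erase k, ρ i ^ (x i).val := by
    unfold gg
    rw [← Finset.mul_prod_erase univ _ (mem_univ k), hxk, ZMod.val_zero, pow_zero, one_mul]
  rw [hg] at hs
  have h2 := sq_ns hπ (fun h0 => (hπ.dvd_or_dvd h0).elim hu1 hnp) hs
  rw [nsm hπ hu1 hnp, ns_pow, ns_prod hπ hnd] at h2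
  unfold EQ
  rw [← h2, mul_comm s]
  congr 1
  exact Finset.sum_congr rfl fun i _ => by rw [ns_pow]; rfl

/-- the global classes -/
theorem exists_gg (h : PF ρ) (hu : ∀ u : 𝓞 F, IsUnit u → ∃ v : 𝓞 F, IsUnit v ∧ (u = v ^ 2 ∨ u = -v ^ 2))
    {q : F} (hq : q ≠ 0)
    (hEv : ∀ P : HeightOneSpectrum (𝓞 F), (∀ k, P.valuation F (algebraMap (𝓞 F) F (ρ k)) = 1) → Ev (P.valuation F) q) :
    ∃ (s : ZMod 2) (x : κ → ZMod 2), SqE q (algebraMap (𝓞 F) F (gg ρ s x)) := by
  classical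
  obtain ⟨a, b, hb, rfl⟩ := IsFractionRing.div_surjective (A := 𝓞 F) q
  have hb0 : b ≠ 0 := nonZeroDivisors.ne_zero hb
  have hbF : (algebraMap (𝓞 F) F b) ≠ 0 := ff_ne hb0
  have ha0 : a ≠ 0 := by
    rintro rfl
    apply hq
    rw [map_zero, zero_div]
  obtain ⟨r, t, ht, hg⟩ := exists_sqfree (a * b) (mul_ne_zero ha0 hb0)
  have ht0 : t ≠ 0 := ht.ne_zero
  have hr0 : r ≠ 0 := by
    rintro rfl
    rw [zero_pow two_ne_zero, mul_zero] at hg
    exact mul_ne_zero ha0 hb0 hg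
  have hrF : (algebraMap (𝓞 F) F r) ≠ 0 := ff_ne hr0
  have hqt : SqE (algebraMap (𝓞 F) F a / algebraMap (𝓞 F) F b) (algebraMap (𝓞 F) F t) := by
    refine ⟨(algebraMap (𝓞 F) F r) / (algebraMap (𝓞 F) F b), div_ne_zero hrF hbF, ?_⟩
    have e : (algebraMap (𝓞 F) F a) * (algebraMap (𝓞 F) F b) = (algebraMap (𝓞 F) F t) * (algebraMap (𝓞 F) F r) ^ 2 := by
      have := congrArg (algebraMap (𝓞 F) F) hg
      simp only [map_mul, map_pow] at this
      exact this
    field_simp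
    linear_combination e
  have hfac : ∀ p : 𝓞 F, Prime p → p ∣ t → ∃ k, p ∣ ρ k := by
    intro p hp hpt
    by_contra hcon
    push Not at hcon
    have h1 := hEv (plc hp) (fun k => plc_one hp (hcon k))
    obtain ⟨z, hz, h2⟩ := h1.sqE hqt.symm
    obtain ⟨t', rfl⟩ := hpt
    have hpt' : ¬ p ∣ t' := by
      intro h3
      exact hp.not_isUnit (ht p (mul_dvd_mul_left p h3))
    rw [map_mul, map_mul, plc_self, plc_one hp hpt', mul_one] at h2
    obtain ⟨m, hm⟩ := vexp (w := (plc hp).valuation F) hz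
    rw [hm, ← exp_nsmul, exp_inj] at h2
    simp only [nsmul_eq_mul, Nat.cast_ofNat] at h2
    omega
  obtain ⟨T, u, hun, htu⟩ := exists_prod h ht ht0 hfac
  obtain ⟨v, hv, hv'⟩ := hu u hun
  have hv0 : (algebraMap (𝓞 F) F v) ≠ 0 := ff_ne hv.ne_zero
  have hprod : ∏ k, ρ k ^ (if k ∈ T then (1 : ZMod 2) else 0).val = ∏ k ∈ T, ρ k := by
    have e : ∀ k, ρ k ^ (if k ∈ T then (1 : ZMod 2) else 0).val = if k ∈ T then ρ k else 1 := by
      intro k
      split_ifs
      · rw [show ZMod.val (1 : ZMod 2) = 1 from rfl, pow_one]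
      · rw [ZMod.val_zero, pow_zero]
    simp only [e]
    rw [Finset.prod_ite_mem, Finset.univ_inter]
  rcases hv' with hv' | hv'
  · refine ⟨0, fun k => if k ∈ T then 1 else 0, hqt.trans ⟨algebraMap (𝓞 F) F v, hv0, ?_⟩⟩
    unfold gg
    rw [hprod, htu, hv', ZMod.val_zero, pow_zero, one_mul]
    simp only [map_mul, map_pow]
    ring
  · refine ⟨1, fun k => if k ∈ T then 1 else 0, hqt.trans ⟨algebraMap (𝓞 F) F v, hv0, ?_⟩⟩
    unfold gg
    rw [hprod, htu, hv', show ZMod.val (1 : ZMod 2) = 1 from rfl, pow_one]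
    simp only [map_mul, map_pow, map_neg, map_one]
    ring

end field

end Pool.Agent.L0h23.FD
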