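import Pool.Agent.Y698.Ls

/-!
# The local step of the full 2-descent on a curve with three points of order two
-/

set_option autoImplicit false
set_option linter.unusedSectionVars false

attribute [-instance] DivisionRing.toRatAlgebra

namespace Pool.Agent.L0h23.FD

open Pool.Agent.Y698
open WeierstrassCurve

open Pool.Agent.TH841.SH.D (Pt act Gal Coch IsCoc IsCob LocTriv)
open Pool.Agent.TH841.SH (IsR IsX gf isX_zero isX_some not_isX)
open Pool.Agent.TH841.NF (act_act act_id act_some' pt_ext pt_inj)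

section loc

open scoped Classical

variable {K C E Ω : Type} [Field K] [Field C] [Field E] [Field Ω] [Algebra K C] [Algebra K Ω]
  [Algebra E Ω] [Algebra K E] [IsScalarTower K E Ω] [IsGalois E Ω] [CharZero Ω] [CharZero E]
  [CharZero C] {W : WeierstrassCurve K} {ι : C →ₐ[K] Ω} {f : (C ≃ₐ[K] C) → Pt W C}

/-- the square root of the class which belongs to the point of order two with abscissa `e` -/
structure Rt3 (ι : C →ₐ[K] Ω) (f : (C ≃ₐ[K] C) → Pt W C) (S : (C ≃ₐ[K] C) → Prop) (eE : E)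
    (s : C) (q : E) : Prop where
  sq : algebraMap E Ω q = (ι s) ^ 2
  pm : ∀ σ : C ≃ₐ[K] C, S σ → (σ s) ^ 2 = s ^ 2
  fix : ∃ e : C, ι e = algebraMap E Ω eE ∧
    ∀ σ : C ≃ₐ[K] C, S σ → (σ s = s ↔ IsX (W.baseChange C) e (f σ))

theorem loc3 {a b c : E} (hIs : IsR (W.baseChange Ω) (algebraMap E Ω a) (algebraMap E Ω b)
      (algebraMap E Ω c)) (hab : a ≠ b) (hac : a ≠ c) (hbc : b ≠ c)
    (hf : ∀ σ, f σ + f σ = 0) {S : (C ≃ₐ[K] C) → Prop} {R : Pt W Ω}
    (hex : ∀ τ : Ω ≃ₐ[E] Ω, ∃ σ : C ≃ₐ[K] C, ∀ x, τ (ι x) = ι (σ x))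
    (hS : ∀ (τ : Ω ≃ₐ[E] Ω) (σ : C ≃ₐ[K] C), (∀ x, τ (ι x) = ι (σ x)) → S σ)
    (hR : ∀ (τ : Ω ≃ₐ[E] Ω) (σ : C ≃ₐ[K] C), (∀ x, τ (ι x) = ι (σ x)) →
      act W (τ.toAlgHom.restrictScalars K) R = R + act W ι (f σ)) :
    (∀ (e : E) (s : C) (q : E), Rt3 ι f S e s q → IsSquare q) ∨
    ∃ x y : E, y ^ 2 = (x - a) * (x - b) * (x - c) ∧
      (∀ (s : C) (q : E), Rt3 ι f S a s q → IsSquare ((x - a) * q)) ∧
      (∀ (s : C) (q : E), Rt3 ι f S b s q → IsSquare ((x - b) * q)) ∧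
      (∀ (s : C) (q : E), Rt3 ι f S c s q → IsSquare ((x - c) * q)) := by
  have h2 : (2 : Ω) ≠ 0 := two_ne_zero
  have n1 : algebraMap E Ω a ≠ algebraMap E Ω b := fun h => hab ((algebraMap E Ω).injective h)
  have n2 : algebraMap E Ω a ≠ algebraMap E Ω c := fun h => hac ((algebraMap E Ω).injective h)
  have n3 : algebraMap E Ω b ≠ algebraMap E Ω c := fun h => hbc ((algebraMap E Ω).injective h)
  have hτ : ∀ (τ : Ω ≃ₐ[E] Ω) (e : E), τ (algebraMap E Ω e) = algebraMap E Ω e :=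
    fun τ e => AlgEquiv.commutes τ e
  have hTT : ∀ σ, act W ι (f σ) + act W ι (f σ) = 0 := by
    intro σ
    rw [← map_add, hf, map_zero]
  by_cases hRR : R + R = 0
  · left
    intro e s q hs
    have hsE : ∀ (τ : Ω ≃ₐ[E] Ω) (σ : C ≃ₐ[K] C), (∀ x, τ (ι x) = ι (σ x)) → σ s = s := by
      intro τ σ hσ
      have h3 : act W (τ.toAlgHom.restrictScalars K) R = R := by
        have key : ∀ (e : E) (hn : (W.baseChange Ω).toAffine.Nonsingular (algebraMap E Ω e) 0),
            act W (τ.toAlgHom.restrictScalars K) (Affine.Point.some (algebraMap E Ω e) 0 hn) =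
              (Affine.Point.some (algebraMap E Ω e) 0 hn : (W.baseChange Ω).toAffine.Point) := by
          intro e hn
          rw [act_some']
          exact pt_ext _ _ (hτ τ e) (map_zero τ)
        rcases hIs.tors h2 hRR with rfl | ⟨h4, rfl⟩ | ⟨h4, rfl⟩ | ⟨h4, rfl⟩
        · exact map_zero _
        · exact key _ h4
        · exact key _ h4
        · exact key _ h4
      have h4 := hR τ σ hσ
      rw [h3] at h4
      have h5 : act W ι (f σ) = 0 := (left_eq_add.1 h4)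
      have h6 : f σ = 0 := act_inj' W ι (by rw [h5, map_zero])
      obtain ⟨e', -, hfx⟩ := hs.fix
      rw [hfx σ (hS τ σ hσ), h6]
      exact isX_zero _
    obtain ⟨z, hz⟩ := fixm (K := E) (ι s) (fun τ => by
      obtain ⟨σ, hσ⟩ := hex τ
      rw [hσ, hsE τ σ hσ])
    refine ⟨z, (algebraMap E Ω).injective ?_⟩
    rw [hs.sq, map_mul, hz]
    ring
  right
  have hdb : ∀ (τ : Ω ≃ₐ[E] Ω) (σ : C ≃ₐ[K] C), (∀ x, τ (ι x) = ι (σ x)) →
      act W (τ.toAlgHom.restrictScalars K) (R + R) = R + R := by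
    intro τ σ hσ
    rw [map_add, hR τ σ hσ]
    have h8 : ∀ A B : Pt W Ω, (A + B) + (A + B) = (A + A) + (B + B) :=
      fun A B => by abel
    rw [h8, hTT, add_zero]
  -- the coordinates
  rcases R with _ | ⟨u, v, hn⟩
  · exact absurd (add_zero (0 : Pt W Ω)) hRR
  have hv : v ≠ 0 := by
    intro hv
    exact hRR ((hIs.add_self h2 hn).2 hv)
  obtain ⟨X, Y, hn', e1, hXa⟩ := hIs.dup h2 hn hv
  have hfix : ∀ τ : Ω ≃ₐ[E] Ω, τ X = X ∧ τ Y = Y := by
    intro τ
    obtain ⟨σ, hσ⟩ := hex τ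
    have h6 : act W (τ.toAlgHom.restrictScalars K)
        (Affine.Point.some X Y hn' : (W.baseChange Ω).toAffine.Point) =
        (Affine.Point.some X Y hn' : (W.baseChange Ω).toAffine.Point) := by
      have h7 := hdb τ σ hσ
      have e2 : @HAdd.hAdd (Pt W Ω) (Pt W Ω) _ _ (Affine.Point.some u v hn)
          (Affine.Point.some u v hn) =
          (Affine.Point.some X Y hn' : (W.baseChange Ω).toAffine.Point) := e1
      rw [e2] at h7
      exact h7
    rw [act_some'] at h6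
    exact pt_inj _ _ h6
  obtain ⟨x, hx⟩ := fixm (K := E) X (fun τ => (hfix τ).1)
  obtain ⟨y, hy⟩ := fixm (K := E) Y (fun τ => (hfix τ).2)
  have hQ := (hIs.eqn X Y).1 hn'.1
  -- the squares
  have key : ∀ {a b c : E} (h : IsR (W.baseChange Ω) (algebraMap E Ω a) (algebraMap E Ω b)
      (algebraMap E Ω c)) (n1 : algebraMap E Ω a ≠ algebraMap E Ω b)
      (n2 : algebraMap E Ω a ≠ algebraMap E Ω c) (n3 : algebraMap E Ω b ≠ algebraMap E Ω c)
      (s : C) (q : E), Rt3 ι f S a s q → IsSquare ((x - a) * q) := by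
    intro a b c h n1 n2 n3 s q hs
    obtain ⟨X', Y', hn'', e1', hXA⟩ := h.dup h2 hn hv
    rw [e1, Affine.Point.some.injEq] at e1'
    obtain ⟨rfl, rfl⟩ := e1'
    obtain ⟨e, he, hfx⟩ := hs.fix
    obtain ⟨z, hz⟩ : ∃ z : E, algebraMap E Ω z =
        gf (W.baseChange Ω) (algebraMap E Ω a) (algebraMap E Ω b) (algebraMap E Ω c)
          (.some u v hn) * ι s := by
      apply fixm
      intro τ
      obtain ⟨σ, hσ⟩ := hex τ
      have e0 : τ (gf (W.baseChange Ω) (algebraMap E Ω a) (algebraMap E Ω b) (algebraMap E Ω c)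
          (.some u v hn)) =
          gf (W.baseChange Ω) (algebraMap E Ω a) (algebraMap E Ω b) (algebraMap E Ω c)
            (act W (τ.toAlgHom.restrictScalars K) (.some u v hn)) :=
        act_gf' W (τ.toAlgHom.restrictScalars K) (hτ τ a) (hτ τ b) (hτ τ c) (.some u v hn)
      obtain ⟨u', v', hn3, e2, hv', h3, h4⟩ := h.sign h2 n1 n2 n3 hn hv (hTT σ)
      have e3 : @HAdd.hAdd (Pt W Ω) (Pt W Ω) _ _ (Affine.Point.some u v hn)
          (act W ι (f σ)) =
        (Affine.Point.some u' v' hn3 : (W.baseChange Ω).toAffine.Point) := e2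
      have h6 : IsX (W.baseChange Ω) (algebraMap E Ω a) (act W ι (f σ)) ↔ σ s = s := by
        rw [← he, act_isX', hfx σ (hS τ σ hσ)]
      rw [map_mul, hσ, e0, hR τ σ hσ, e3]
      by_cases hX : IsX (W.baseChange Ω) (algebraMap E Ω a) (act W ι (f σ))
      · rw [h3 hX, h6.1 hX]
      · rw [h4 hX]
        have h7 : σ s ≠ s := fun h' => hX (h6.2 h')
        rcases sq_eq_sq_iff_eq_or_eq_neg.1 (hs.pm σ (hS τ σ hσ)) with h8 | h8
        · exact absurd h8 h7
        · rw [h8, map_neg, neg_mul_neg]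
    refine ⟨z, (algebraMap E Ω).injective ?_⟩
    rw [map_mul, map_mul, hz, map_sub, hx, hs.sq]
    have h9 : X - algebraMap E Ω a = (gf (W.baseChange Ω) (algebraMap E Ω a) (algebraMap E Ω b)
      (algebraMap E Ω c) (.some u v hn)) ^ 2 := hXA
    rw [h9]
    ring
  refine ⟨x, y, ?_, key hIs n1 n2 n3, key hIs.rot n3 n1.symm n2.symm,
    key hIs.rot.rot n2.symm n3.symm n1⟩
  apply (algebraMap E Ω).injective
  rw [map_pow, map_mul, map_mul, map_sub, map_sub, map_sub, hx, hy, hQ]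

end loc

end Pool.Agent.L0h23.FD
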