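import Pool.Agent.L0h23.FD.Cur

/-!
# The pair of Selmer classes of a cocycle, for `y² = x³ + D³`
-/

set_option autoImplicit false
set_option linter.unusedSectionVars false

attribute [-instance] DivisionRing.toRatAlgebra

namespace Pool.Agent.L0h23.FD

open Pool.Agent.Y698
open WeierstrassCurve IsDedekindDomain NumberField WithZero

open Pool.Agent.TH841.SH.D (Pt act Gal Coch IsCoc IsCob LocTriv)
open Pool.Agent.TH841.NF.D (IsShaCoc)
open Pool.Agent.TH841.SH (IsR IsX gf isX_zero isX_some not_isX)
open Pool.Agent.TH841.NF (act_act act_id act_some' pt_ext pt_inj coc_fin)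

open scoped Classical

variable {D : ℕ} (hD0 : D ≠ 0) {K F : Type} [Field K] [NumberField K] [Field F] [NumberField F] [Algebra K F]
  [Algebra F (AlgebraicClosure K)] [IsScalarTower K F (AlgebraicClosure K)]
  [IsGalois F (AlgebraicClosure K)]

/-- the data of a cocycle with values in the points of order two -/
structure Co2Y (g : Coch (WY K D)) : Prop where
  two : ∀ σ, g σ + g σ = 0
  coc : ∀ σ τ : Gal K, g (σ * τ) = g σ + act (WY K D) σ.toAlgHom (g τ)
  fin : ∃ S : Finset (AlgebraicClosure K), ∀ τ : Gal K, (∀ x ∈ S, τ x = x) → g τ = 0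
  loc : ∀ v : HeightOneSpectrum (𝓞 K), LocTriv (WY K D) (v.adicCompletion K) g

variable {g : Coch (WY K D)} (hg : Co2Y g) {b : F} (hb : b ^ 2 = b - 1)
  (hF : ∀ x : F, ∃ k₁ k₂ : K, x = algebraMap K F k₁ + algebraMap K F k₂ * b)

/-- the class which belongs to one root -/
structure Cls (g : Coch (WY K D)) (b e : F) (q : F) (s : AlgebraicClosure K) : Prop where
  ne : q ≠ 0
  sq : s ^ 2 = algebraMap F (AlgebraicClosure K) q
  fix : ∀ σ : Gal K, σ (algebraMap F (AlgebraicClosure K) b) = algebraMap F (AlgebraicClosure K) b →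
    (σ s = s ↔ IsX ((WY K D).baseChange (AlgebraicClosure K))
      (algebraMap F (AlgebraicClosure K) e) (g σ))

include hg hb hF in
/-- one class, from the additivity of the pairing -/
theorem exists_cls {e : F} (hadd : ∀ {T T' : Pt (WY K D) (AlgebraicClosure K)}, T + T = 0 →
      T' + T' = 0 → (IsX ((WY K D).baseChange (AlgebraicClosure K))
        (algebraMap F (AlgebraicClosure K) e) (T + T') ↔
        (IsX ((WY K D).baseChange (AlgebraicClosure K))
        (algebraMap F (AlgebraicClosure K) e) T ↔ IsX ((WY K D).baseChange (AlgebraicClosure K))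
        (algebraMap F (AlgebraicClosure K) e) T'))) :
    ∃ (q : F) (s : AlgebraicClosure K), Cls g b e q s := by
  set C := AlgebraicClosure K with hCdef
  set bC : C := algebraMap F C b with hbC
  have hcz : CharZero C := inferInstance
  have hCC : bC ^ 2 = bC - 1 := by
    rw [hbC, ← map_pow, hb, map_sub, map_one]
  obtain ⟨S, hS⟩ := hg.fin
  obtain ⟨q, s, hq, hs, hχ⟩ := kumF (F := F) (C := C)
    (fun σ => IsX ((WY K D).baseChange C) (algebraMap F C e) (g (σ.restrictScalars K))) S (by
      intro τ hτ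
      show IsX ((WY K D).baseChange C) (algebraMap F C e) (g (τ.restrictScalars K))
      rw [hS (τ.restrictScalars K) hτ]
      exact isX_zero _) (by
      intro σ τ
      show IsX ((WY K D).baseChange C) (algebraMap F C e)
        (g (σ.restrictScalars K * τ.restrictScalars K)) ↔ _
      have hσb : (σ.restrictScalars K) bC = bC := σ.commutes b
      have h1 := tor_fixY (K := K) (σ := σ.restrictScalars K) hCC hσb
        (hg.two (τ.restrictScalars K))
      rw [hg.coc]
      erw [h1]
      exact hadd (hg.two _) (hg.two _))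
  refine ⟨q, s, hq, hs, fun σ hσ => ?_⟩
  exact hχ (liftF σ (fix_F hF hσ))

include hD0 hg hb hF in
/-- the two classes -/
theorem sel_pair : ∃ (qA qB : F) (sA sB : AlgebraicClosure K), Cls g b (ra D b) qA sA ∧
    Cls g b (rb D b) qB sB ∧ ∀ P : HeightOneSpectrum (𝓞 F),
      FP D (algebraMap F (P.adicCompletion F) b) (algebraMap F (P.adicCompletion F) qA)
        (algebraMap F (P.adicCompletion F) qB) := by
  set C := AlgebraicClosure K with hCdef
  set bC : C := algebraMap F C b with hbC
  have hcz : CharZero C := inferInstance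
  have hCC : bC ^ 2 = bC - 1 := by
    rw [hbC, ← map_pow, hb, map_sub, map_one]
  have hIs := isRY (K := K) hCC D
  obtain ⟨n1, n2, n3⟩ := rab_ne hD0 hCC
  obtain ⟨m0, m1, m2⟩ := map_r (algebraMap F C) D b
  rw [← hbC] at m1 m2
  obtain ⟨qA, sA, hA⟩ := exists_cls hg hb hF (e := ra D b) (by
    intro T T' hT hT'
    rw [m1]
    exact hIs.rot.isX_add two_ne_zero n3 n1.symm n2.symm hT hT')
  obtain ⟨qB, sB, hB⟩ := exists_cls hg hb hF (e := rb D b) (by
    intro T T' hT hT'
    rw [m2]
    exact hIs.rot.rot.isX_add two_ne_zero n2.symm n3.symm n1 hT hT')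
  refine ⟨qA, qB, sA, sB, hA, hB, fun P => ?_⟩
  -- the local field
  set E := P.adicCompletion F with hE
  have hchE : CharZero E := charC P
  let i2 : Algebra K E := ((algebraMap F E).comp (algebraMap K F)).toAlgebra
  have hloc : LocTriv (WY K D) E g :=
    loc_mono (WY K D) (jx K P) (fun x => jx_coe K P x) (hg.loc (dn K P))
  have hchO : CharZero (AlgebraicClosure E) := inferInstance
  let ι' : C →ₐ[F] AlgebraicClosure E := IsAlgClosed.lift
  let ι : C →ₐ[K] AlgebraicClosure E :=
    { (ι' : C →+* AlgebraicClosure E) with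
      commutes' := by
        intro x
        show ι' (algebraMap K C x) = _
        rw [IsScalarTower.algebraMap_apply K F C, ι'.commutes]
        rfl }
  have hι : ∀ x : F, ι (algebraMap F C x) = algebraMap F (AlgebraicClosure E) x :=
    fun x => ι'.commutes x
  have hι2 : ∀ x : F, ι (algebraMap F C x) = algebraMap E (AlgebraicClosure E) (algebraMap F E x) :=
    fun x => (hι x).trans rfl
  obtain ⟨R, hR⟩ := hloc ι
  have hex : ∀ τ : Gal E, ∃ σ : Gal K, ∀ x, τ (ι x) = ι (σ x) := by
    intro τ
    exact aut_two (ι : C →+* AlgebraicClosure E)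
      (((τ : AlgebraicClosure E ≃+* AlgebraicClosure E) : AlgebraicClosure E →+*
        AlgebraicClosure E).comp (ι : C →+* AlgebraicClosure E)) (by
        intro x
        change ι (algebraMap K C x) = τ (ι (algebraMap K C x))
        rw [ι.commutes]
        exact (τ.commutes (algebraMap K E x)).symm)
  have hgal : IsGalois E (AlgebraicClosure E) := { }
  obtain ⟨k0, k1, k2⟩ := map_r (algebraMap F E) D b
  set bE : E := algebraMap F E b with hbE
  have haE : bE ^ 2 = bE - 1 := by
    rw [hbE, ← map_pow, hb, map_sub, map_one]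
  set bO : AlgebraicClosure E := algebraMap E (AlgebraicClosure E) bE with hbO
  have haO : bO ^ 2 = bO - 1 := by
    rw [hbO, ← map_pow, haE, map_sub, map_one]
  obtain ⟨p0, p1, p2⟩ := map_r (algebraMap E (AlgebraicClosure E)) D bE
  have hIsO : IsR ((WY K D).baseChange (AlgebraicClosure E))
      (algebraMap E (AlgebraicClosure E) (ro E D)) (algebraMap E (AlgebraicClosure E) (ra D bE))
      (algebraMap E (AlgebraicClosure E) (rb D bE)) := by
    rw [p0, p1, p2]
    exact isRY haO D
  obtain ⟨l1, l2, l3⟩ := rab_ne hD0 haE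
  have hSfix : ∀ (τ : Gal E) (σ : Gal K), (∀ x, τ (ι x) = ι (σ x)) → σ bC = bC := by
    intro τ σ h
    apply ι.injective
    show ι (σ bC) = ι bC
    rw [← h, hbC, hι2]
    exact τ.commutes _
  have rt : ∀ {e q : F} {s : C}, Cls g b e q s →
      Rt3 ι g (fun σ => σ bC = bC) (algebraMap F E e) s (algebraMap F E q) := by
    intro e q s h
    refine ⟨?_, fun σ hσ => ?_, algebraMap F C e, hι2 e, h.fix⟩
    · rw [← map_pow, h.sq, hι2]
    · rw [← map_pow, h.sq, fix_F hF hσ]
  have rA := rt hA
  have rB := rt hB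
  have rO : Rt3 ι g (fun σ => σ bC = bC) (ro E D) (sA * sB) (algebraMap F E qA * algebraMap F E qB) := by
    refine ⟨?_, fun σ hσ => ?_, algebraMap F C (ro F D), ?_, fun σ hσ => ?_⟩
    · rw [map_mul, rA.sq, rB.sq, map_mul]
      ring
    · rw [map_mul, mul_pow, mul_pow, rA.pm σ hσ, rB.pm σ hσ]
    · rw [hι2, k0]
    · have h1 := hA.fix σ hσ
      have h2 := hB.fix σ hσ
      rw [m1] at h1
      rw [m2] at h2
      rw [m0, isX_first hIs two_ne_zero n1 n2 n3 (hg.two σ), ← h1, ← h2]
      have hA0 : sA ≠ 0 := by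
        rintro h0
        have h3 := hA.sq
        rw [h0, zero_pow two_ne_zero] at h3
        exact hA.ne ((map_eq_zero _).1 h3.symm)
      have hB0 : sB ≠ 0 := by
        rintro h0
        have h3 := hB.sq
        rw [h0, zero_pow two_ne_zero] at h3
        exact hB.ne ((map_eq_zero _).1 h3.symm)
      have hneg : ∀ z : C, z ≠ 0 → -z ≠ z := by
        intro z hz h0
        apply hz
        have h3 : (2 : C) * z = 0 := by linear_combination -h0
        exact (mul_eq_zero.1 h3).resolve_left two_ne_zero
      rw [map_mul]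
      rcases sq_eq_sq_iff_eq_or_eq_neg.1 (rA.pm σ hσ) with h3 | h3 <;>
        rcases sq_eq_sq_iff_eq_or_eq_neg.1 (rB.pm σ hσ) with h4 | h4
      · rw [h3, h4]
        simp
      · rw [h3, h4]
        have e1 := hneg sB hB0
        have e2 := hneg (sA * sB) (mul_ne_zero hA0 hB0)
        rw [mul_neg]
        exact ⟨fun h => absurd h e2, fun h => absurd (h.1 rfl) e1⟩
      · rw [h3, h4]
        have e1 := hneg sA hA0
        have e2 := hneg (sA * sB) (mul_ne_zero hA0 hB0)
        rw [neg_mul]
        exact ⟨fun h => absurd h e2, fun h => absurd (h.2 rfl) e1⟩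
      · rw [h3, h4, neg_mul_neg]
        have e1 := hneg sA hA0
        have e2 := hneg sB hB0
        exact ⟨fun _ => ⟨fun h => absurd h e1, fun h => absurd h e2⟩, fun _ => rfl⟩
  rcases loc3 (W := WY K D) (E := E) hIsO l1 l2 l3 hg.two (S := fun σ => σ bC = bC) hex hSfix
    (R := R) (fun τ σ hσ => by
      rw [hR τ σ hσ]
      abel) with h | ⟨x, y, hxy, h0, h1, h2⟩
  · exact Or.inl ⟨h _ _ _ rA, h _ _ _ rB⟩
  · refine Or.inr ⟨x, y, hxy, h0 _ _ rO, ?_, ?_⟩
    · exact h1 _ _ (k1 ▸ rA)
    · exact h2 _ _ (k2 ▸ rB)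

end Pool.Agent.L0h23.FD
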