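import Pool.Agent.L0h23.FD.Val

/-!
# Quadratic symbols and places of a number field with a principal ring of integers
-/

set_option autoImplicit false
set_option linter.unusedSectionVars false

attribute [-instance] DivisionRing.toRatAlgebra

namespace Pool.Agent.L0h23.FD

open Pool.Agent.Y698 hiding Sgn
open IsDedekindDomain NumberField WithZero

open Classical in
/-- the quadratic residue symbol: `0` if `x` is a square modulo `y`, `1` if it is not -/
noncomputable def ns {A : Type*} [CommRing A] (x y : A) : ZMod 2 :=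
  if ∃ z : A, y ∣ x - z ^ 2 then 0 else 1

section ring

variable {A : Type*} [CommRing A]

lemma ns_eq_zero {x y : A} : ns x y = 0 ↔ ∃ z : A, y ∣ x - z ^ 2 := by
  unfold ns
  split_ifs with h
  · exact ⟨fun _ => h, fun _ => rfl⟩
  · exact ⟨fun h' => absurd h' one_ne_zero, fun h' => absurd h' h⟩

lemma ns_sq (x y : A) : ns (x ^ 2) y = 0 := ns_eq_zero.2 ⟨x, by rw [sub_self]; exact dvd_zero _⟩

lemma ns_one (y : A) : ns 1 y = 0 := by
  have := ns_sq (1 : A) y
  rwa [one_pow] at this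

lemma ns_iff {x y : A} : ns x y = 0 ↔ IsSquare (Ideal.Quotient.mk (Ideal.span {y}) x) := by
  rw [ns_eq_zero]
  constructor
  · rintro ⟨z, hz⟩
    refine ⟨Ideal.Quotient.mk _ z, ?_⟩
    rw [← map_mul, Ideal.Quotient.eq, Ideal.mem_span_singleton, ← pow_two]
    exact hz
  · rintro ⟨z, hz⟩
    obtain ⟨z, rfl⟩ := Ideal.Quotient.mk_surjective z
    refine ⟨z, ?_⟩
    rw [← map_mul, Ideal.Quotient.eq, Ideal.mem_span_singleton, ← pow_two] at hz
    exact hz

lemma zmod2_cases (a : ZMod 2) : a = 0 ∨ a = 1 := by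
  revert a; decide

lemma zmod2_eq {a b : ZMod 2} (h : a = 0 ↔ b = 0) : a = b := by
  revert a b
  decide

lemma ns_congr {x x' y : A} (h : y ∣ x - x') : ns x y = ns x' y := by
  apply zmod2_eq
  rw [ns_eq_zero, ns_eq_zero]
  constructor
  · rintro ⟨z, hz⟩
    refine ⟨z, ?_⟩
    have : x' - z ^ 2 = (x - z ^ 2) - (x - x') := by ring
    rw [this]
    exact dvd_sub hz h
  · rintro ⟨z, hz⟩
    refine ⟨z, ?_⟩
    have : x - z ^ 2 = (x' - z ^ 2) + (x - x') := by ring
    rw [this]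
    exact dvd_add hz h

/-- squares in a finite field -/
lemma fin_mul {k : Type*} [Field k] [Finite k] {a b : k} (ha : a ≠ 0) (hb : b ≠ 0) :
    IsSquare (a * b) ↔ (IsSquare a ↔ IsSquare b) := by
  classical
  by_cases h2 : ringChar k = 2
  · have := FiniteField.isSquare_of_char_two h2
    exact ⟨fun _ => ⟨fun _ => this b, fun _ => this a⟩, fun _ => this _⟩
  · have := Fintype.ofFinite k
    rw [← quadraticChar_one_iff_isSquare ha, ← quadraticChar_one_iff_isSquare hb,
      ← quadraticChar_one_iff_isSquare (mul_ne_zero ha hb), map_mul]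
    rcases quadraticChar_dichotomy ha with h | h <;> rcases quadraticChar_dichotomy hb with h' | h' <;>
      rw [h, h'] <;> norm_num

/-- the symbol is additive -/
lemma ns_mul {π x y : A} (hm : (Ideal.span {π}).IsMaximal)
    [Finite (A ⧸ Ideal.span {π})] (hx : ¬ π ∣ x) (hy : ¬ π ∣ y) :
    ns (x * y) π = ns x π + ns y π := by
  let _ : Field (A ⧸ Ideal.span {π}) := Ideal.Quotient.field _
  have nz : ∀ {t : A}, ¬ π ∣ t → Ideal.Quotient.mk (Ideal.span {π}) t ≠ 0 := by
    intro t ht h0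
    rw [Ideal.Quotient.eq_zero_iff_mem, Ideal.mem_span_singleton] at h0
    exact ht h0
  have h := fin_mul (nz hx) (nz hy)
  rw [← map_mul, ← ns_iff, ← ns_iff, ← ns_iff] at h
  rcases zmod2_cases (ns x π) with h1 | h1 <;> rcases zmod2_cases (ns y π) with h2 | h2 <;>
    rcases zmod2_cases (ns (x * y) π) with h3 | h3 <;> rw [h1, h2, h3] at h ⊢ <;> revert h <;>
    decide

end ring

section field

variable {F : Type} [Field F] [NumberField F] {π : 𝓞 F}

/-- the place of a prime element -/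
noncomputable def plc (hπ : Prime π) : HeightOneSpectrum (𝓞 F) :=
  ⟨Ideal.span {π}, (Ideal.span_singleton_prime hπ.ne_zero).2 hπ, by
    rw [Ne, Ideal.span_singleton_eq_bot]; exact hπ.ne_zero⟩

lemma plc_max (hπ : Prime π) : (Ideal.span {π}).IsMaximal := (plc hπ).isMaximal

lemma plc_fin (hπ : Prime π) : Finite (𝓞 F ⧸ Ideal.span {π}) :=
  Ideal.finiteQuotientOfFreeOfNeBot _ (plc hπ).ne_bot

lemma plc_lt (hπ : Prime π) (x : 𝓞 F) : (plc hπ).valuation F (algebraMap (𝓞 F) F x) < 1 ↔ π ∣ x := by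
  rw [HeightOneSpectrum.valuation_lt_one_iff_dvd]
  show Ideal.span {π} ∣ Ideal.span {x} ↔ _
  rw [Ideal.dvd_span_singleton, Ideal.mem_span_singleton]

lemma val_le (P : HeightOneSpectrum (𝓞 F)) (x : 𝓞 F) : P.valuation F (algebraMap (𝓞 F) F x) ≤ 1 :=
  P.valuation_le_one x

lemma plc_one (hπ : Prime π) {x : 𝓞 F} (h : ¬ π ∣ x) : (plc hπ).valuation F (algebraMap (𝓞 F) F x) = 1 :=
  le_antisymm (val_le _ x) (not_lt.1 fun h1 => h ((plc_lt hπ x).1 h1))

lemma plc_self (hπ : Prime π) : (plc hπ).valuation F (algebraMap (𝓞 F) F π) = exp (-1) := by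
  rw [HeightOneSpectrum.valuation_of_algebraMap]
  exact (plc hπ).intValuation_singleton hπ.ne_zero rfl

/-- the symbol is additive -/
lemma nsm (hπ : Prime π) {x y : 𝓞 F} (hx : ¬ π ∣ x) (hy : ¬ π ∣ y) :
    ns (x * y) π = ns x π + ns y π := by
  have := plc_fin hπ
  exact ns_mul (plc_max hπ) hx hy

/-- the inverse modulo a prime -/
lemma exists_inv (hπ : Prime π) {x : 𝓞 F} (hx : ¬ π ∣ x) : ∃ u : 𝓞 F, π ∣ x * u - 1 := by
  have hm := plc_max hπ
  have h1 : x ∉ Ideal.span {π} := fun h => hx (Ideal.mem_span_singleton.1 h)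
  obtain ⟨u, i, hi, h⟩ := hm.exists_inv h1
  refine ⟨u, ?_⟩
  rw [Ideal.mem_span_singleton] at hi
  have e : x * u - 1 = -i := by linear_combination h
  rw [e]
  exact hi.neg_right

/-- squares at the place of a prime element -/
theorem sq_ns [IsPrincipalIdealRing (𝓞 F)] (hπ : Prime π) {x : 𝓞 F} (hx : ¬ π ∣ x)
    (h : Sq ((plc hπ).valuation F) (algebraMap (𝓞 F) F x)) : ns x π = 0 := by
  set w := (plc hπ).valuation F with hw
  obtain ⟨z, hz, hzx⟩ := h
  have hz1 : w z = 1 := by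
    have h1 := Sq.val hzx
    rw [hw, plc_one hπ hx] at h1
    exact (pow_eq_one_iff_of_nonneg zero_le two_ne_zero).1 h1.symm
  rw [hz1, one_pow] at hzx
  obtain ⟨a, b, hab, rfl⟩ := IsFractionRing.exists_reduced_fraction (𝓞 F) z
  have hb0 : (algebraMap (𝓞 F) F b) ≠ 0 := by
    have h1 := nonZeroDivisors.ne_zero b.2
    exact fun h => h1 ((FaithfulSMul.algebraMap_injective (𝓞 F) F) (by rw [map_zero]; exact h))
  have hzb : IsLocalization.mk' F a b * (algebraMap (𝓞 F) F b) = (algebraMap (𝓞 F) F a) := IsLocalization.mk'_spec F a b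
  have hwab : w (algebraMap (𝓞 F) F a) = w (algebraMap (𝓞 F) F b) := by
    rw [← hzb, map_mul, hz1, one_mul]
  have hb : ¬ π ∣ (b : 𝓞 F) := by
    intro h
    have h1 : w (algebraMap (𝓞 F) F b) < 1 := (plc_lt hπ _).2 h
    have h2 : π ∣ a := (plc_lt hπ _).1 (by rw [← hw, hwab]; exact h1)
    exact hπ.not_isUnit (hab h2 h)
  have hwb : w (algebraMap (𝓞 F) F b) = 1 := plc_one hπ hb
  obtain ⟨u, hu⟩ := exists_inv hπ hb
  have h1 : ((algebraMap (𝓞 F) F x) - (IsLocalization.mk' F a b) ^ 2) * (algebraMap (𝓞 F) F b) ^ 2 =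
      (algebraMap (𝓞 F) F (x * b ^ 2 - a ^ 2)) := by
    have e : (algebraMap (𝓞 F) F (x * b ^ 2 - a ^ 2)) = (algebraMap (𝓞 F) F x) * (algebraMap (𝓞 F) F b) ^ 2 - (algebraMap (𝓞 F) F a) ^ 2 := by
      simp only [map_sub, map_mul, map_pow]
    rw [e, ← hzb]
    ring
  have h2 := congrArg w h1
  rw [map_mul, map_pow, hwb, one_pow, mul_one] at h2
  rw [h2] at hzx
  have h3 : π ∣ x * b ^ 2 - a ^ 2 := (plc_lt hπ _).1 hzx
  refine ns_eq_zero.2 ⟨a * u, ?_⟩
  obtain ⟨c, hc⟩ := h3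
  obtain ⟨d, hd⟩ := hu
  refine ⟨u ^ 2 * c - x * d * (b * u + 1), ?_⟩
  linear_combination u ^ 2 * hc - x * (b * u + 1) * hd

end field

end Pool.Agent.L0h23.FD
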